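import Pool.Agent.H49.FRF.Fam
import Pool.Agent.H11.FR.NkThm
import Pool.Agent.H86.OC.ROW
import Pool.Agent.H40.FR.GridGrad
import Pool.Agent.H1.M5.TAY
import Pool.Agent.H1.OVN.Cell
import Pool.Agent.H44.OVN.Hgt
import Pool.Agent.H65.OVN.Box5

/-!
# FR without hypotheses

The prediction lemma in several variables, the one-box lemma, FR for one context, the row `FRF` of
the slope law in classes with spread fans.
-/

set_option autoImplicit false

namespace Pool.FRF

open Pool.PB

/-- **(NK)** The prediction lemma in several variables. -/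
theorem nk : Pool.OVN.NKStmt :=
  Pool.FR.nk_thm Pool.OC.RS.row_M5 Pool.Agent.H40.FR.grid_grad Pool.Agent.H1.M5.tay_thm

/-- **(BOX)** -/
theorem box : Pool.OVN.BOXStmt := Pool.OVN.box_thm nk Pool.Agent.H1.OVN.rdn_thm Pool.OVN.hgt_thm

/-- **(FR)** -/
theorem fr : Pool.OVN.FRStmt := Pool.OVN.fr_of_box box

/-- **(FRF)** for classes with spread fans. -/
theorem frf {k : ℕ} {S : FCl (k + 1)} (hS : SPS S (k + 1 - 2)) : Pool.SLF.FRF S := frf_thm hS box

end Pool.FRF
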