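import Pool.Agent.H59.M5.Bxs

/-!
# The rounded germ in base coordinates

`grd`: the polynomial with the rounded coefficients (in the coordinates of a cell), as a polynomial
in the base coordinates. It agrees with the germ near the cell, together with its derivatives.
-/

set_option autoImplicit false

namespace Pool.FRF

open Finset Real MvPolynomial
open Pool.Agent.H49.Ent Pool.Agent.H32.Dense Pool.STK Pool.KA Pool.KSAT Pool.K2S Pool.PB
open Pool.SLP Pool.SLO Pool.KAL

variable {m : ℕ}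

theorem pul_shf (a : ℕ) (c : Fin m → ℤ) (G : MvPolynomial (Fin m) ℝ) :
    Pool.OVN.pul a c G = shf G (1 / 2 ^ a) (fun j => (c j : ℝ) / 2 ^ a) := rfl

/-- The rounded germ: from the cell and the digits. -/
noncomputable def grd (a K g : ℕ) (c : Fin m → ℤ) (z : (Fin m →₀ ℕ) → ℤ) :
    MvPolynomial (Fin m) ℝ :=
  shf (rdz K g z) (2 ^ a) (fun j => -(c j : ℝ))

theorem totalDegree_grd (a K g : ℕ) (c : Fin m → ℤ) (z : (Fin m →₀ ℕ) → ℤ) :
    (grd a K g c z).totalDegree ≤ K :=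
  (totalDegree_shf_le _ _ _).trans (totalDegree_rdz _ _ _)

theorem pul_grd (a K g : ℕ) (c : Fin m → ℤ) (z : (Fin m →₀ ℕ) → ℤ) :
    Pool.OVN.pul a c (grd a K g c z) = rdz K g z := by
  have h0 : (0 : ℝ) < 2 ^ a := by positivity
  rw [pul_shf]
  unfold grd
  rw [shf_shf]
  have e1 : (2 : ℝ) ^ a * (1 / 2 ^ a) = 1 := by field_simp
  have e2 : (fun i => -(c i : ℝ) + 2 ^ a * ((c i : ℝ) / 2 ^ a)) = fun _ : Fin m => (0 : ℝ) := by
    funext i
    field_simp
    ring
  rw [e1, e2, shf_zero_one]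

theorem pul_sub (a : ℕ) (c : Fin m → ℤ) (G G' : MvPolynomial (Fin m) ℝ) :
    Pool.OVN.pul a c (G - G') = Pool.OVN.pul a c G - Pool.OVN.pul a c G' := by
  unfold Pool.OVN.pul
  exact map_sub _ _ _

theorem coeff_rdz (K g : ℕ) (z : (Fin m →₀ ℕ) → ℤ) {s : Fin m →₀ ℕ} (hs : s ∈ mons m K) :
    coeff s (rdz K g z) = (z s : ℝ) / 2 ^ g := by
  classical
  unfold rdz
  rw [coeff_sum]
  simp only [coeff_monomial]
  rw [Finset.sum_ite_eq' (mons m K) s, if_pos hs]

/-- Rounding of the coefficients. -/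
theorem coefSum_rdp {K g : ℕ} {A : MvPolynomial (Fin m) ℝ} (hA : A.totalDegree ≤ K) :
    coefSum (A - rdp K g A) ≤ (mons m K).card / 2 ^ g := by
  classical
  have hg : (0 : ℝ) < 2 ^ g := by positivity
  have hsub : (A - rdp K g A).support ⊆ mons m K := by
    intro s hs
    rw [mem_mons]
    refine (le_totalDegree hs).trans ((totalDegree_sub _ _).trans (max_le hA ?_))
    exact totalDegree_rdz _ _ _
  rw [coefSum_eq_of_subset _ _ hsub]
  have h1 : ∀ s ∈ mons m K, |coeff s (A - rdp K g A)| ≤ 1 / 2 ^ g := by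
    intro s hs
    rw [coeff_sub]
    unfold rdp
    rw [coeff_rdz K g _ hs]
    have a1 := Int.floor_le ((2 : ℝ) ^ g * coeff s A)
    have a2 := Int.lt_floor_add_one ((2 : ℝ) ^ g * coeff s A)
    have e : coeff s A - (SLO.hz g A s : ℝ) / 2 ^ g =
        (2 ^ g * coeff s A - (SLO.hz g A s : ℝ)) / 2 ^ g := by
      field_simp
    rw [e, abs_div, abs_of_pos hg]
    refine div_le_div_of_nonneg_right ?_ hg.le
    unfold SLO.hz
    rw [abs_le]
    constructor <;> linarith
  refine (Finset.sum_le_sum h1).trans ?_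
  rw [Finset.sum_const, nsmul_eq_mul, mul_one_div]

/-- The rounded germ of the germ `G`. -/
noncomputable def rg (a K g : ℕ) (c : Fin m → ℤ) (G : MvPolynomial (Fin m) ℝ) :
    MvPolynomial (Fin m) ℝ := grd a K g c (Pool.OVN.hz g (Pool.OVN.pul a c G))

theorem rg_psi {a K g : ℕ} (c : Fin m → ℤ) {G : MvPolynomial (Fin m) ℝ}
    (hG : G.totalDegree ≤ K) :
    Psi (G - rg a K g c G) (1 / 2 ^ a) (fun j => (c j : ℝ) / 2 ^ a) ≤
      (mons m K).card / 2 ^ g := by
  unfold Psi
  rw [← pul_shf, pul_sub]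
  unfold rg
  rw [pul_grd]
  exact coefSum_rdp (A := Pool.OVN.pul a c G) ((totalDegree_pul_le _ _ _).trans hG)

/-- The radius of the neighbourhood is `M` cells. -/
theorem rg_psi_near {a K g : ℕ} {c : Fin m → ℤ} {G : MvPolynomial (Fin m) ℝ}
    (hG : G.totalDegree ≤ K) {M : ℝ} (hM : 0 ≤ M) {b : Fin m → ℝ}
    (hb : ∀ j, |b j - (c j : ℝ) / 2 ^ a| ≤ M / 2 ^ a) :
    Psi (G - rg a K g c G) (1 / 2 ^ a) b ≤ (1 + M) ^ K * ((mons m K).card / 2 ^ g) := by
  have hdeg : (G - rg a K g c G).totalDegree ≤ K :=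
    (totalDegree_sub _ _).trans (max_le hG (totalDegree_grd _ _ _ _ _))
  have h1 := Psi_le_of_dist (G - rg a K g c G) (1 / 2 ^ a) M (by positivity) hM
    (fun j => (c j : ℝ) / 2 ^ a) b (fun j => (hb j).trans (le_of_eq (by ring)))
  refine h1.trans ?_
  refine mul_le_mul (pow_le_pow_right₀ (by linarith) hdeg) (rg_psi c hG) (Psi_nonneg _ _ _)
    (by positivity)

theorem rg_near {a K g : ℕ} {c : Fin m → ℤ} {G : MvPolynomial (Fin m) ℝ}
    (hG : G.totalDegree ≤ K) {M : ℝ} (hM : 0 ≤ M) {b : Fin m → ℝ}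
    (hb : ∀ j, |b j - (c j : ℝ) / 2 ^ a| ≤ M / 2 ^ a) :
    |eval b G - eval b (rg a K g c G)| ≤ (1 + M) ^ K * ((mons m K).card / 2 ^ g) := by
  rw [← map_sub]
  exact (abs_eval_le_Psi _ (1 / 2 ^ a) b).trans (rg_psi_near hG hM hb)

theorem rg_grad {a K g : ℕ} {c : Fin m → ℤ} {G : MvPolynomial (Fin m) ℝ}
    (hG : G.totalDegree ≤ K) {M : ℝ} (hM : 0 ≤ M) {b : Fin m → ℝ}
    (hb : ∀ j, |b j - (c j : ℝ) / 2 ^ a| ≤ M / 2 ^ a) (j : Fin m) :
    |eval b (pderiv j G) - eval b (pderiv j (rg a K g c G))| ≤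
      2 ^ a * (K * ((1 + M) ^ K * ((mons m K).card / 2 ^ g))) := by
  have h0 : (0 : ℝ) < 2 ^ a := by positivity
  have hdeg : (G - rg a K g c G).totalDegree ≤ K :=
    (totalDegree_sub _ _).trans (max_le hG (totalDegree_grd _ _ _ _ _))
  rw [← map_sub, ← map_sub]
  refine (abs_eval_le_Psi _ (1 / 2 ^ a) b).trans ?_
  have h1 := Psi_pderiv_le (G - rg a K g c G) (1 / 2 ^ a) (by positivity) b j
  have h2 := rg_psi_near (g := g) hG hM hb
  have h3 : ((G - rg a K g c G).totalDegree : ℝ) * Psi (G - rg a K g c G) (1 / 2 ^ a) b ≤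
      K * ((1 + M) ^ K * ((mons m K).card / 2 ^ g)) :=
    mul_le_mul (by exact_mod_cast hdeg) h2 (Psi_nonneg _ _ _) (Nat.cast_nonneg K)
  have h4 := mul_le_mul_of_nonneg_left (h1.trans h3) h0.le
  have e : (2 : ℝ) ^ a * (1 / 2 ^ a * Psi (pderiv j (G - rg a K g c G)) (1 / 2 ^ a) b) =
      Psi (pderiv j (G - rg a K g c G)) (1 / 2 ^ a) b := by
    field_simp
  rw [e] at h4
  exact h4

/-! ### Fixed time -/

section sect

variable {k : ℕ}

theorem pderiv_sect (i₁ : Fin (k + 1)) (τ : ℝ) (G : MvPolynomial (Fin (k + 1)) ℝ) (j : Fin k) :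
    pderiv j (sect i₁ τ G) = sect i₁ τ (pderiv (i₁.succAbove j) G) := by
  classical
  unfold sect
  induction G using MvPolynomial.induction_on with
  | C a => simp
  | add p q hp hq => rw [map_add, map_add, hp, hq, map_add, map_add]
  | mul_X p i hp =>
    rw [map_mul, Derivation.leibniz, hp, bind₁_X_right, Derivation.leibniz, map_add]
    refine Fin.succAboveCases (α := fun i =>
      (bind₁ (Fin.insertNth (α := fun _ => MvPolynomial (Fin k) ℝ) i₁ (C τ) fun j => X j)) p •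
        pderiv j (Fin.insertNth (α := fun _ => MvPolynomial (Fin k) ℝ) i₁ (C τ)
          (fun j => X j) i) +
      Fin.insertNth (α := fun _ => MvPolynomial (Fin k) ℝ) i₁ (C τ) (fun j => X j) i •
        (bind₁ (Fin.insertNth (α := fun _ => MvPolynomial (Fin k) ℝ) i₁ (C τ) fun j => X j))
          (pderiv (i₁.succAbove j) p) =
      (bind₁ (Fin.insertNth (α := fun _ => MvPolynomial (Fin k) ℝ) i₁ (C τ) fun j => X j))
        (p • pderiv (i₁.succAbove j) (X i)) +
      (bind₁ (Fin.insertNth (α := fun _ => MvPolynomial (Fin k) ℝ) i₁ (C τ) fun j => X j))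
        (X i • pderiv (i₁.succAbove j) p)) i₁ ?_ (fun l => ?_) i
    · rw [Fin.insertNth_apply_same, pderiv_C, pderiv_X_of_ne (Fin.succAbove_ne i₁ j).symm]
      simp
    · rw [Fin.insertNth_apply_succAbove]
      by_cases hl : l = j
      · subst hl
        simp
      · rw [pderiv_X_of_ne hl, pderiv_X_of_ne (fun h => hl (Fin.succAbove_right_injective h))]
        simp

/-- The sheet at the exact time in the coordinates of the static cell. -/
theorem cpl_ger {J : ℕ} (F : Fam (k + 1) J) (i₁ : Fin (k + 1)) (a : ℕ)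
    (G : F.Ω → MvPolynomial (Fin (k + 1)) ℝ) (ω : F.Ω) :
    cpl F i₁ a G ω = rename i₁.succAbove
      (Pool.OVN.pul a (fl a (fun j => F.x ω (i₁.succAbove j))) (sect i₁ (F.t ω) (G ω))) := by
  refine MvPolynomial.funext fun u => ?_
  rw [eval_cpl, eval_rename, eval_pul, eval_sect]
  unfold gfn
  congr 1
  congr 1
  funext j
  refine Fin.succAboveCases (α := fun j => Function.update
    (fun i => tco i₁ a F.x ω i + 1 / 2 ^ a * u i) i₁ (F.t ω) j =
      Fin.insertNth (α := fun _ => ℝ) i₁ (F.t ω) (fun j =>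
        (fl a (fun j => F.x ω (i₁.succAbove j)) j : ℝ) / 2 ^ a +
          1 / 2 ^ a * (u ∘ i₁.succAbove) j) j) i₁ ?_ (fun l => ?_) j
  · rw [Function.update_self, Fin.insertNth_apply_same]
  · rw [Function.update_of_ne (Fin.succAbove_ne i₁ l), Fin.insertNth_apply_succAbove]
    unfold tco tdg
    rw [if_neg (Fin.succAbove_ne i₁ l)]
    rfl

end sect

end Pool.FRF
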