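import Pool.Agent.H49.FRF.Fr
import Pool.Agent.H49.FRF.Grd
import Pool.Agent.H59.SLF.Gtr

/-!
# FR for one context of a family

`sdt`: the data of `FRStmt` for a family: the sheets are the rounded germs at the exact time.
`frf_core`: FR for the static boxes, for one law.
-/

set_option autoImplicit false

namespace Pool.FRF

open Finset Real MvPolynomial
open Pool.Agent.H49.Ent Pool.Agent.H32.Dense Pool.STK Pool.KA Pool.KSAT Pool.K2S Pool.PB
open Pool.SLP Pool.SLO Pool.KAL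

variable {k J : ℕ}

/-- The data: the sheets are the rounded germs at the exact time. -/
noncomputable def sdt (F : Fam (k + 1) J) (i₁ : Fin (k + 1)) (r α K g : ℕ)
    (G : (Fin (k + 1) → ℤ) × (ℕ × F.ζ) → MvPolynomial (Fin (k + 1)) ℝ) (q : F.Ω → ℝ) :
    Pool.OVN.SDat k where
  Om := F.Ω
  Lam := ℕ × ((F.ζ × (Fin (k + 1) → ℤ)) × ((Fin (k + 1) →₀ ℕ) → ℤ))
  Wt := ℕ × F.ζ
  P := q
  L := fun ω => (F.T ω, rcd F i₁ r α g G ω)
  W := F.W
  G := fun l => sect i₁ ((l.1 : ℝ) / 2 ^ J) (grd α K g l.2.1.2 l.2.2)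
  y := fun ω j => F.x ω (i₁.succAbove j)
  x := fun ω => F.x ω i₁

/-- The rounded germ of the sample. -/
noncomputable def gr (F : Fam (k + 1) J) (i₁ : Fin (k + 1)) (r α K g : ℕ)
    (G : (Fin (k + 1) → ℤ) × (ℕ × F.ζ) → MvPolynomial (Fin (k + 1)) ℝ) (ω : F.Ω) :
    MvPolynomial (Fin (k + 1)) ℝ := rg α K g (bc F i₁ α ω) (G (ptr F r ω))

section one

variable (F : Fam (k + 1) J) (i₁ : Fin (k + 1)) (r α K g : ℕ)
  (G : (Fin (k + 1) → ℤ) × (ℕ × F.ζ) → MvPolynomial (Fin (k + 1)) ℝ) (q : F.Ω → ℝ)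

theorem sdt_GL (ω : F.Ω) : (sdt F i₁ r α K g G q).G ((sdt F i₁ r α K g G q).L ω) =
    sect i₁ (F.t ω) (gr F i₁ r α K g G ω) := rfl

theorem totalDegree_gr (ω : F.Ω) : (gr F i₁ r α K g G ω).totalDegree ≤ K :=
  totalDegree_grd _ _ _ _ _

theorem bp_insert (ω : F.Ω) : Fin.insertNth (α := fun _ => ℝ) i₁ (F.t ω)
    (fun j => F.x ω (i₁.succAbove j)) = bp F i₁ ω := by
  funext j
  refine Fin.succAboveCases (α := fun j => Fin.insertNth (α := fun _ => ℝ) i₁ (F.t ω)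
    (fun j => F.x ω (i₁.succAbove j)) j = bp F i₁ ω j) i₁ ?_ (fun l => ?_) j
  · unfold bp
    rw [Fin.insertNth_apply_same, Function.update_self]
  · unfold bp
    rw [Fin.insertNth_apply_succAbove, Function.update_of_ne (Fin.succAbove_ne i₁ l)]

theorem bc_near (F : Fam (k + 1) J) (i₁ : Fin (k + 1)) (α : ℕ) (ω : F.Ω) (j : Fin (k + 1)) :
    |bp F i₁ ω j - (bc F i₁ α ω j : ℝ) / 2 ^ α| ≤ 1 / 2 ^ α := by
  have h := cell_near (F := F) (i₁ := i₁) (a := α) (ω := ω) (z := fun _ => (0 : ℝ))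
    (fun i => ⟨le_rfl, zero_le_one⟩) j
  rw [mul_zero, add_zero, abs_sub_comm] at h
  exact h

theorem near_cell (F : Fam (k + 1) J) (i₁ : Fin (k + 1)) (α : ℕ) (ω : F.Ω)
    {b : Fin (k + 1) → ℝ} (hb : ∀ j, |b j - bp F i₁ ω j| ≤ 1 / 2 ^ α) (j : Fin (k + 1)) :
    |b j - (bc F i₁ α ω j : ℝ) / 2 ^ α| ≤ 2 / 2 ^ α := by
  have h1 := hb j
  have h2 := bc_near F i₁ α ω j
  have e : (2 : ℝ) / 2 ^ α = 1 / 2 ^ α + 1 / 2 ^ α := by ring
  rw [e]
  rw [abs_le] at h1 h2 ⊢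
  constructor <;> linarith [h1.1, h1.2, h2.1, h2.2]

/-- The constant of the rounding. -/
noncomputable def cr (k K : ℕ) : ℝ := (1 + 2) ^ K * (mons (k + 1) K).card

theorem cr_nonneg (k K : ℕ) : 0 ≤ cr k K := by unfold cr; positivity

variable {F i₁ r α K g G q}

theorem gr_near (hG : ∀ y, (G y).totalDegree ≤ K) {ω : F.Ω}
    {b : Fin (k + 1) → ℝ} (hb : ∀ j, |b j - bp F i₁ ω j| ≤ 1 / 2 ^ α) :
    |eval b (G (ptr F r ω)) - eval b (gr F i₁ r α K g G ω)| ≤ cr k K / 2 ^ g := by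
  refine (rg_near (hG _) (by norm_num : (0 : ℝ) ≤ 2) (near_cell F i₁ α ω hb)).trans
    (le_of_eq ?_)
  unfold cr
  ring

theorem gr_grad (hG : ∀ y, (G y).totalDegree ≤ K) (hαg : α ≤ g) {ω : F.Ω}
    {b : Fin (k + 1) → ℝ} (hb : ∀ j, |b j - bp F i₁ ω j| ≤ 1 / 2 ^ α) (j : Fin (k + 1)) :
    |eval b (pderiv j (G (ptr F r ω))) - eval b (pderiv j (gr F i₁ r α K g G ω))| ≤
      K * cr k K := by
  refine (rg_grad (g := g) (hG _) (by norm_num : (0 : ℝ) ≤ 2) (near_cell F i₁ α ω hb) j).trans ?_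
  have h0 : (0 : ℝ) < 2 ^ g := by positivity
  have h1 : (2 : ℝ) ^ α ≤ 2 ^ g := pow_le_pow_right₀ (by norm_num) hαg
  have h2 : (2 : ℝ) ^ α * (K * ((1 + 2) ^ K * ((mons (k + 1) K).card / 2 ^ g))) =
      2 ^ α / 2 ^ g * (K * cr k K) := by
    unfold cr
    ring
  rw [h2]
  have h3 : (2 : ℝ) ^ α / 2 ^ g ≤ 1 := (div_le_one h0).2 h1
  have h4 : 0 ≤ K * cr k K := mul_nonneg (Nat.cast_nonneg K) (cr_nonneg k K)
  calc (2 : ℝ) ^ α / 2 ^ g * (K * cr k K) ≤ 1 * (K * cr k K) :=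
        mul_le_mul_of_nonneg_right h3 h4
    _ = K * cr k K := one_mul _

/-- The data are valid. -/
theorem sdt_ok (hq : IsLaw q) (hG : ∀ y, (G y).totalDegree ≤ K) {P : ℕ} (hαg : α ≤ g)
    (hPg : (1 + cr k K) / 2 ^ g ≤ 1 / 2 ^ P)
    (hon : ∀ ω, 0 < q ω → |F.x ω i₁ - eval (bp F i₁ ω) (G (ptr F r ω))| ≤ 1 / 2 ^ g)
    (hgr : ∀ ω, 0 < q ω → ∀ b : Fin (k + 1) → ℝ, (∀ j, |b j - bp F i₁ ω j| ≤ 1 / 2 ^ α) →
      ∀ j, |eval b (pderiv j (G (ptr F r ω)))| ≤ 2 * ((k + 1 : ℕ) : ℝ) + 1) :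
    (sdt F i₁ r α K g G q).OK K α P (2 * ((k + 1 : ℕ) : ℝ) + 1 + K * cr k K) where
  law := hq
  hW := by
    intro ω ω' _ _ hh
    have e1 : (F.T ω, rcd F i₁ r α g G ω) = (F.T ω', rcd F i₁ r α g G ω') := hh
    have e2 := Prod.ext_iff.1 e1
    have e3 : rcd F i₁ r α g G ω = rcd F i₁ r α g G ω' := e2.2
    exact Prod.ext e2.1 (Prod.ext_iff.1 (Prod.ext_iff.1 e3).1).1
  deg := fun l => (totalDegree_sect_le _ _ _).trans (totalDegree_grd _ _ _ _ _)
  hx := by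
    intro ω hω
    rw [sdt_GL, eval_sect]
    change |F.x ω i₁ - eval (Fin.insertNth (α := fun _ => ℝ) i₁ (F.t ω)
      (fun j => F.x ω (i₁.succAbove j))) (gr F i₁ r α K g G ω)| ≤ 1 / 2 ^ P
    rw [bp_insert]
    have h1 := hon ω hω
    have h2 := gr_near (F := F) (i₁ := i₁) (r := r) (α := α) (g := g) hG (ω := ω)
      (b := bp F i₁ ω) (fun j => by rw [sub_self, abs_zero]; positivity)
    refine le_trans ?_ hPg
    have e : (1 + cr k K) / 2 ^ g = 1 / 2 ^ g + cr k K / 2 ^ g := by ring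
    rw [e]
    rw [abs_le] at h1 h2 ⊢
    constructor <;> linarith [h1.1, h1.2, h2.1, h2.2]
  grad := by
    intro ω hω b hb j
    have hb' : ∀ i, |Fin.insertNth (α := fun _ => ℝ) i₁ (F.t ω) b i - bp F i₁ ω i| ≤
        1 / 2 ^ α := by
      intro i
      refine Fin.succAboveCases (α := fun i => |Fin.insertNth (α := fun _ => ℝ) i₁ (F.t ω) b i -
        bp F i₁ ω i| ≤ 1 / 2 ^ α) i₁ ?_ (fun l => ?_) i
      · unfold bp
        rw [Fin.insertNth_apply_same, Function.update_self, sub_self, abs_zero]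
        positivity
      · unfold bp
        rw [Fin.insertNth_apply_succAbove, Function.update_of_ne (Fin.succAbove_ne i₁ l)]
        exact hb l
    rw [sdt_GL, pderiv_sect, eval_sect]
    have h1 := hgr ω hω _ hb' (i₁.succAbove j)
    have h2 := gr_grad (F := F) (i₁ := i₁) (r := r) (α := α) (g := g) hG hαg (ω := ω) hb'
      (i₁.succAbove j)
    rw [abs_le] at h1 h2 ⊢
    constructor <;> linarith [h1.1, h1.2, h2.1, h2.2]

/-- The cell of the position. -/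
theorem cel_tdg {b : ℕ} {ω ω' : F.Ω} : (sdt F i₁ r α K g G q).cel b ω =
    (sdt F i₁ r α K g G q).cel b ω' ↔ tdg i₁ b F.x ω = tdg i₁ b F.x ω' := by
  constructor
  · intro h
    funext i
    unfold tdg
    refine Fin.succAboveCases (α := fun i => (if i = i₁ then (0 : ℤ) else
      ⌊(2 : ℝ) ^ b * F.x ω i⌋) = if i = i₁ then 0 else ⌊(2 : ℝ) ^ b * F.x ω' i⌋) i₁ ?_
      (fun l => ?_) i
    · rw [if_pos rfl, if_pos rfl]
    · rw [if_neg (Fin.succAbove_ne i₁ l), if_neg (Fin.succAbove_ne i₁ l)]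
      exact congrFun h l
  · intro h
    funext l
    have h1 := congrFun h (i₁.succAbove l)
    unfold tdg at h1
    rw [if_neg (Fin.succAbove_ne i₁ l), if_neg (Fin.succAbove_ne i₁ l)] at h1
    exact h1

/-- The positions are full. -/
theorem sdt_full (hq : IsLaw q) (hαJ : α ≤ J) {P : ℕ} {δ : ℝ}
    (h : k * (((P : ℝ) - α) * Real.log 2) - δ ≤
      CH q (tdg i₁ P F.x) (fun ω => (F.T ω, rcd F i₁ r α g G ω))) :
    (sdt F i₁ r α K g G q).Full α P δ := by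
  have hnn := hq.nonneg
  refine h.trans ?_
  have h1 : CH q (tdg i₁ P F.x) (fun ω => (F.T ω, rcd F i₁ r α g G ω)) ≤
      CH q ((sdt F i₁ r α K g G q).cel P) (fun ω => (F.T ω, rcd F i₁ r α g G ω)) :=
    CH_mono_left hnn fun ω ω' _ _ hh => cel_tdg.1 (Prod.ext_iff.1 hh).1
  refine h1.trans (CH_mono_cond hnn ?_)
  intro ω ω' _ _ hh
  have e1 : (F.T ω, rcd F i₁ r α g G ω) = (F.T ω', rcd F i₁ r α g G ω') := hh
  have e2 := Prod.ext_iff.1 e1
  have e3 : rcd F i₁ r α g G ω = rcd F i₁ r α g G ω' := e2.2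
  have e4 : bc F i₁ α ω = bc F i₁ α ω' := (Prod.ext_iff.1 (Prod.ext_iff.1 e3).1).2
  have e5 : F.W ω = F.W ω' :=
    Prod.ext e2.1 (Prod.ext_iff.1 (Prod.ext_iff.1 e3).1).1
  refine Prod.ext (Prod.ext hh e5) ?_
  exact cel_tdg.2 ((bc_iff F i₁ hαJ ω ω').1 e4).1

theorem pnt_X {b : ℕ} {ω ω' : F.Ω} : (sdt F i₁ r α K g G q).pnt b ω =
    (sdt F i₁ r α K g G q).pnt b ω' ↔ F.X b ω = F.X b ω' := by
  constructor
  · intro h
    have h1 := Prod.ext_iff.1 h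
    funext i
    refine Fin.succAboveCases (α := fun i => F.X b ω i = F.X b ω' i) i₁ ?_ (fun l => ?_) i
    · exact h1.2
    · exact congrFun h1.1 l
  · intro h
    refine Prod.ext ?_ ?_
    · funext l
      exact congrFun h (i₁.succAbove l)
    · exact congrFun h i₁

/-- The rows. -/
theorem sdt_row {p : F.Ω → ℝ} (hp : IsLaw p) (b b' : ℕ) :
    CH p ((sdt F i₁ r α K g G q).pnt b) (fun ω => ((sdt F i₁ r α K g G q).pnt b' ω,
      (sdt F i₁ r α K g G q).W ω)) = CH p (F.X b) (fun ω => (F.X b' ω, F.W ω)) := by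
  have hnn := hp.nonneg
  refine le_antisymm ?_ ?_
  · refine (CH_mono_left hnn (X' := F.X b) ?_).trans (CH_mono_cond hnn ?_)
    · intro ω ω' _ _ hh
      exact pnt_X.2 (Prod.ext_iff.1 hh).1
    · intro ω ω' _ _ hh
      have e := Prod.ext_iff.1 hh
      exact Prod.ext (pnt_X.1 e.1) e.2
  · refine (CH_mono_left hnn (X' := (sdt F i₁ r α K g G q).pnt b) ?_).trans
      (CH_mono_cond hnn ?_)
    · intro ω ω' _ _ hh
      exact pnt_X.1 (Prod.ext_iff.1 hh).1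
    · intro ω ω' _ _ hh
      have e := Prod.ext_iff.1 hh
      exact Prod.ext (pnt_X.2 e.1) e.2

/-- The coefficients over the static cell. -/
theorem cpl_gr (a : ℕ) (ω : F.Ω) : cpl F i₁ a (gr F i₁ r α K g G) ω =
    rename i₁.succAbove ((sdt F i₁ r α K g G q).ger a ω) :=
  cpl_ger F i₁ a (gr F i₁ r α K g G) ω

theorem hz_of_ger {a Q : ℕ} {ω ω' : F.Ω} {al : Fin (k + 1) →₀ ℕ}
    (h : ∀ s : Fin k →₀ ℕ, s.mapDomain i₁.succAbove = al →
      Pool.OVN.hz Q ((sdt F i₁ r α K g G q).ger a ω) s =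
        Pool.OVN.hz Q ((sdt F i₁ r α K g G q).ger a ω') s) :
    SLO.hz Q (cpl F i₁ a (gr F i₁ r α K g G) ω) al =
      SLO.hz Q (cpl F i₁ a (gr F i₁ r α K g G) ω') al := by
  unfold SLO.hz
  rw [cpl_gr (q := q), cpl_gr (q := q)]
  by_cases hs : ∃ s : Fin k →₀ ℕ, s.mapDomain i₁.succAbove = al
  · obtain ⟨s, hs⟩ := hs
    have h1 := h s hs
    rw [← hs, coeff_rename_mapDomain _ Fin.succAbove_right_injective,
      coeff_rename_mapDomain _ Fin.succAbove_right_injective]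
    exact h1
  · rw [coeff_rename_eq_zero _ _ _ (fun u hu => absurd ⟨u, hu⟩ hs),
      coeff_rename_eq_zero _ _ _ (fun u hu => absurd ⟨u, hu⟩ hs)]

theorem ger_of_hz {a Q : ℕ} {ω ω' : F.Ω} {s : Fin k →₀ ℕ}
    (h : SLO.hz Q (cpl F i₁ a (gr F i₁ r α K g G) ω) (s.mapDomain i₁.succAbove) =
      SLO.hz Q (cpl F i₁ a (gr F i₁ r α K g G) ω') (s.mapDomain i₁.succAbove)) :
    Pool.OVN.hz Q ((sdt F i₁ r α K g G q).ger a ω) s =
      Pool.OVN.hz Q ((sdt F i₁ r α K g G q).ger a ω') s := by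
  unfold SLO.hz at h
  rw [cpl_gr (q := q), cpl_gr (q := q),
    coeff_rename_mapDomain _ Fin.succAbove_right_injective,
    coeff_rename_mapDomain _ Fin.succAbove_right_injective] at h
  exact h

/-- **The shape of the rounded germ given the static box** is the shape given the context of the
data. -/
theorem sdt_out (hq : IsLaw q) (a P Y : ℕ) :
    CH q (Sc F i₁ a P K (gr F i₁ r α K g G) Y) (SLP.bxs F i₁ a P K (gr F i₁ r α K g G) 0) ≤
      CH q ((sdt F i₁ r α K g G q).shp a (P + Y)) ((sdt F i₁ r α K g G q).ctx a P) := by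
  have hnn := hq.nonneg
  have hinj : Function.Injective (Finsupp.mapDomain (M := ℕ) i₁.succAbove) :=
    Finsupp.mapDomain_injective Fin.succAbove_right_injective
  refine (CH_mono_left hnn (X' := (sdt F i₁ r α K g G q).shp a (P + Y)) ?_).trans
    (CH_mono_cond hnn ?_)
  · intro ω ω' _ _ hh
    have e1 : (sdt F i₁ r α K g G q).shp a (P + Y) ω =
        (sdt F i₁ r α K g G q).shp a (P + Y) ω' := (Prod.ext_iff.1 hh).1
    funext al
    unfold Sc
    by_cases h2 : al ∈ mons (k + 1) K ∧ al ≠ 0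
    · rw [if_pos h2, if_pos h2]
      refine hz_of_ger (q := q) fun s hs => ?_
      have h3 : s ≠ 0 := by
        intro h0
        rw [h0, Finsupp.mapDomain_zero] at hs
        exact h2.2 hs.symm
      have h4 : (if s = 0 then 0 else Pool.OVN.hz (P + Y) ((sdt F i₁ r α K g G q).ger a ω) s) =
          if s = 0 then 0 else Pool.OVN.hz (P + Y) ((sdt F i₁ r α K g G q).ger a ω') s :=
        congrFun e1 s
      exact ((if_neg h3).symm.trans h4).trans (if_neg h3)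
    · rw [if_neg h2, if_neg h2]
  · intro ω ω' _ _ hh
    obtain ⟨e1, e2, e3⟩ := SLP.bxs_hz hh
    refine Prod.ext e1 (Prod.ext (cel_tdg.2 e2) ?_)
    funext s
    by_cases hs : s.mapDomain i₁.succAbove ∈ mons (k + 1) K
    · exact ger_of_hz (q := q) (e3 _ hs)
    · have h5 : ∀ ω₀ : F.Ω, coeff s ((sdt F i₁ r α K g G q).ger a ω₀) = 0 := by
        intro ω₀
        have h6 : coeff (s.mapDomain i₁.succAbove) (cpl F i₁ a (gr F i₁ r α K g G) ω₀) =
            coeff s ((sdt F i₁ r α K g G q).ger a ω₀) := by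
          rw [cpl_gr (q := q), coeff_rename_mapDomain _ Fin.succAbove_right_injective]
        rw [← h6]
        by_contra hne
        exact hs (mem_mons.2 ((le_totalDegree (mem_support_iff.2 hne)).trans
          ((totalDegree_cpl_le F i₁ a _ ω₀).trans (totalDegree_gr F i₁ r α K g G ω₀))))
      change ⌊(2 : ℝ) ^ P * coeff s ((sdt F i₁ r α K g G q).ger a ω)⌋ =
        ⌊(2 : ℝ) ^ P * coeff s ((sdt F i₁ r α K g G q).ger a ω')⌋
      rw [h5, h5]

end one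

/-- **FR for one law.** -/
theorem frf_core (hFR : Pool.OVN.FRStmt) (k K : ℕ) (c ε : ℝ) (hc : 0 < c) (hε : 0 < ε) :
    ∃ (κ π₀ δ₀ C : ℝ) (Y₀ : ℕ), 0 < κ ∧ κ ≤ 1 ∧ 0 < π₀ ∧ 0 < δ₀ ∧ 0 ≤ C ∧
      ∀ (J : ℕ) (F : Fam (k + 1) J) (i₁ : Fin (k + 1)) (q : F.Ω → ℝ) (r α a P Y g : ℕ)
        (G : (Fin (k + 1) → ℤ) × (ℕ × F.ζ) → MvPolynomial (Fin (k + 1)) ℝ)
        (Go : F.Ω → MvPolynomial (Fin (k + 1)) ℝ), IsLaw q → Y₀ ≤ Y → α + 3 * Y ≤ a →
        (2 * K + 1) * Y ≤ P → P + Y ≤ g → α ≤ g → α ≤ J →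
        (1 + cr k K) / 2 ^ g ≤ 1 / 2 ^ P → (∀ y, (G y).totalDegree ≤ K) →
        (∀ ω, 0 < q ω → (Go ω).totalDegree ≤ K) →
        (∀ ω, 0 < q ω → |F.x ω i₁ - eval (bp F i₁ ω) (G (ptr F r ω))| ≤ 1 / 2 ^ g) →
        (∀ ω, 0 < q ω → ∀ b : Fin (k + 1) → ℝ, (∀ j, |b j - bp F i₁ ω j| ≤ 1 / 2 ^ α) →
          ∀ j, |eval b (pderiv j (G (ptr F r ω)))| ≤ 2 * ((k + 1 : ℕ) : ℝ) + 1) →
        (∀ ω, 0 < q ω → ∀ b : Fin (k + 1) → ℝ, (∀ j, |b j - bp F i₁ ω j| ≤ 1 / 2 ^ a) →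
          |eval b (G (ptr F r ω)) - eval b (Go ω)| ≤ 1 / 2 ^ g) →
        k * (((P : ℝ) - α) * Real.log 2) - δ₀ * Y ≤
          CH q (tdg i₁ P F.x) (fun ω => (F.T ω, rcd F i₁ r α g G ω)) →
        (∀ R h : ℕ, κ * Y ≤ h → P ≤ R + (2 * K + 1) * Y → R + h ≤ P →
          ∀ E : Set F.Ω, π₀ ≤ Pool.KAF.Pr q E →
            CH (Pool.Agent.H49.Ent.cond q (fun ω => ω ∈ E) True) (F.X (R + h))
              (fun ω => (F.X R ω, F.W ω)) ≤ (k + 1 - c) * (h * Real.log 2)) →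
        CH q (Sc F i₁ a P K Go Y) (SLP.bxs F i₁ a P K Go 0) ≤ ε * Y + C := by
  obtain ⟨κ, π₀, δ₀, Y₀, hκ0, hκ1, hπ, hδ, hmain⟩ :=
    hFR k K c ε (2 * ((k + 1 : ℕ) : ℝ) + 1 + K * cr k K) hc hε
  obtain ⟨C, hC, htr⟩ := shape_gtr (k + 1) K (1 + cr k K) (by
    have := cr_nonneg k K
    linarith)
  refine ⟨κ, π₀, δ₀, C, Y₀, hκ0, hκ1, hπ, hδ, hC, ?_⟩
  intro J F i₁ q r α a P Y g G Go hq hY hα hP hPY hαg hαJ hround hG hGo hon hgr hcm hfull hrow
  have h1 := hmain (sdt F i₁ r α K g G q) α a P Y hY hα hP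
    (sdt_ok hq hG hαg hround hon hgr) (sdt_full hq hαJ hfull) (by
      intro R h hh hR hRP E hE
      have h2 := hrow R h hh hR hRP E hE
      have hE1 : π₀ ≤ Pe q (fun ω : F.Ω => ω ∈ E) := hE
      have hE0 : 0 < Pe q (fun ω : F.Ω => ω ∈ E) := lt_of_lt_of_le hπ hE1
      exact (le_of_eq (sdt_row (F := F) (i₁ := i₁) (r := r) (α := α) (K := K) (g := g) (G := G)
        (q := q) (Pool.K2S.isLaw_cond hq hE0) (R + h) R)).trans h2)
  have h2 := htr J F i₁ a P Y q Go (gr F i₁ r α K g G) hq (by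
    intro ω hω
    refine ⟨hGo ω hω, totalDegree_gr F i₁ r α K g G ω, ?_⟩
    intro y hy
    rw [eval_cpl, eval_cpl]
    unfold gfn
    have hb := Pool.SLF.cell_ball F i₁ a ω hy
    have hb' : ∀ j, |Function.update (fun i => tco i₁ a F.x ω i + 1 / 2 ^ a * y i) i₁ (F.t ω) j -
        bp F i₁ ω j| ≤ 1 / 2 ^ α := fun j => (hb j).trans (one_div_le_one_div_of_le
          (by positivity) (pow_le_pow_right₀ (by norm_num) (by omega)))
    have h3 := hcm ω hω _ hb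
    have h4 := gr_near (g := g) (r := r) hG hb'
    have h5 : (1 + cr k K) / 2 ^ g ≤ (1 + cr k K) / 2 ^ (P + Y) :=
      div_le_div_of_nonneg_left (by have := cr_nonneg k K; linarith) (by positivity)
        (pow_le_pow_right₀ (by norm_num) hPY)
    refine le_trans ?_ h5
    have e : (1 + cr k K) / 2 ^ g = 1 / 2 ^ g + cr k K / 2 ^ g := by ring
    rw [e]
    rw [abs_le] at h3 h4 ⊢
    constructor <;> linarith [h3.1, h3.2, h4.1, h4.2])
  have h3 := sdt_out (F := F) (i₁ := i₁) (r := r) (α := α) (K := K) (g := g) (G := G) hq a P Y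
  have h1' : CH q ((sdt F i₁ r α K g G q).shp a (P + Y)) ((sdt F i₁ r α K g G q).ctx a P) ≤
      ε * Y := h1
  linarith

end Pool.FRF
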