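import Pool.Agent.H99.LST.Ent
import Pool.Agent.H18.PB.Skel
import Pool.Agent.H20.KA.TRC

/-!
# Regularity of rows on parts of an event

`Clg.sub`: claims are inherited by the large parts of the event. `rrg`: on every part of a stable
event the entropy of the rows is at most that on the event, up to `η J`. `zr_sub`: rows which are
not full are not full on all parts of the event.
-/

set_option autoImplicit false

namespace Pool.PB

open Finset Real
open Pool.Agent.H49.Ent Pool.Agent.H32.Dense Pool.STK Pool.KA Pool.KSAT Pool.K2S Pool.FLF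

variable {m : ℕ}

/-- `exp (- a J)` is small. -/
theorem exp_small {a b : ℝ} (ha : 0 < a) (hb : 0 < b) :
    ∃ J₁ : ℕ, ∀ J : ℕ, J₁ ≤ J → Real.exp (-(a * J)) ≤ b := by
  obtain ⟨J₁, hJ₁⟩ := exists_nat_gt (Real.log (1 / b) / a)
  refine ⟨J₁, fun J hJ => ?_⟩
  have h1 : Real.log (1 / b) / a < J := hJ₁.trans_le (by exact_mod_cast hJ)
  rw [div_lt_iff₀ ha, one_div, Real.log_inv] at h1
  rw [← Real.le_log_iff_exp_le hb]
  linarith

/-- **Claims are inherited by the large parts of the event.** -/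
theorem Clg.sub {S : FCl m} {Φ : Stat m} (hc : Clg S Φ) {p₀ : ℝ} (hp₀ : 0 < p₀) :
    Clg S (fun _ F A => ∀ E : F.Ω → Prop, Sub E A → p₀ * Pe F.p A ≤ Pe F.p E → Φ _ F E) := by
  induction hc with
  | base τ hτ J₁ h =>
    obtain ⟨J₂, hJ₂⟩ := exp_small (a := τ / 2) (b := p₀) (half_pos hτ) hp₀
    refine Clg.base (τ / 2) (half_pos hτ) (max J₁ J₂) fun J hJ F A hA E _ hP => ?_
    refine h J ((le_max_left _ _).trans hJ) F E ⟨S.mono (by linarith) hA.1, le_trans ?_ hP⟩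
    have h1 := hJ₂ J ((le_max_right _ _).trans hJ)
    have h2 := hA.2
    have e : Real.exp (-(τ * J)) = Real.exp (-(τ / 2 * J)) * Real.exp (-(τ / 2 * J)) := by
      rw [← Real.exp_add]
      congr 1
      ring
    rw [e]
    exact mul_le_mul h1 h2 (Real.exp_pos _).le hp₀.le
  | @step Φ L hL ih =>
    refine Clg.step L fun κ hκ => ?_
    obtain ⟨J₂, hJ₂⟩ := exp_small (a := κ / 2) (b := p₀) (half_pos hκ) hp₀
    refine Clg.mono (J₂ := J₂) (ih (κ / 2) (half_pos hκ)) ?_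
    intro J hJ F A h1 h2 E hE hP
    refine h1 E hE hP fun i => ?_
    have h3 := (h2 i).sub (L.her J F i) hE (a := κ / 2 * J)
      ((mul_le_mul_of_nonneg_right (hJ₂ J hJ) (Pe_nonneg F.isLaw A)).trans hP)
    have e : κ * J - κ / 2 * J = κ / 2 * J := by ring
    rwa [e] at h3

/-- The list of the properties: there are at most `exp (i η J)` values of the rows. -/
noncomputable def rwl (m N p₁ p₂ M : ℕ) (η : ℝ) : PList m where
  n := M + 1
  Q J F i := Cnt (F.X (p₂ * (J / N))) (fun ω => (F.X (p₁ * (J / N)) ω, F.W ω)) (i.val * (η * J))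
  her _ _ _ := Cnt.hered _ _ _

/-- The number of values of the rows. -/
theorem row_cnt {J : ℕ} (F : Fam m J) {P₁ P₂ : ℕ} (h : P₁ ≤ P₂) (A : F.Ω → Prop) :
    Cnt (F.X P₂) (fun ω => (F.X P₁ ω, F.W ω)) (m * (((P₂ - P₁ : ℕ) : ℝ) * Real.log 2)) A := by
  classical
  obtain ⟨s, hs⟩ : ∃ s, s = P₂ - P₁ := ⟨_, rfl⟩
  rw [← hs]
  refine ⟨fun t => Fintype.piFinset fun i => Finset.Ico (2 ^ s * t.1 i) (2 ^ s * (t.1 i + 1)),
    fun t => ?_, fun ω _ => ?_⟩
  · rw [Fintype.card_piFinset]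
    have e0 : ∀ i : Fin m, ((Finset.Ico (2 ^ s * t.1 i) (2 ^ s * (t.1 i + 1))).card : ℕ) =
        2 ^ s := by
      intro i
      rw [Int.card_Ico]
      have e1 : (2 ^ s * (t.1 i + 1) - 2 ^ s * t.1 i : ℤ) = ((2 ^ s : ℕ) : ℤ) := by
        push_cast
        ring
      rw [e1, Int.toNat_natCast]
    rw [Finset.prod_congr rfl (fun i _ => e0 i), Finset.prod_const, Finset.card_univ,
      Fintype.card_fin]
    push_cast
    have e1 : Real.exp (m * ((s : ℝ) * Real.log 2)) = ((2 : ℝ) ^ s) ^ m := by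
      rw [Real.exp_nat_mul, Real.exp_nat_mul, Real.exp_log (by norm_num)]
    rw [e1]
  · rw [Fintype.mem_piFinset]
    intro i
    rw [Finset.mem_Ico]
    change 2 ^ s * ⌊(2 : ℝ) ^ P₁ * F.x ω i⌋ ≤ ⌊(2 : ℝ) ^ P₂ * F.x ω i⌋ ∧
      ⌊(2 : ℝ) ^ P₂ * F.x ω i⌋ < 2 ^ s * (⌊(2 : ℝ) ^ P₁ * F.x ω i⌋ + 1)
    have h4 := Int.floor_le ((2 : ℝ) ^ P₁ * F.x ω i)
    have h5 := Int.lt_floor_add_one ((2 : ℝ) ^ P₁ * F.x ω i)
    have e1 : (2 : ℝ) ^ P₂ * F.x ω i = 2 ^ s * (2 ^ P₁ * F.x ω i) := by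
      rw [← mul_assoc, ← pow_add, hs, Nat.sub_add_cancel h]
    have h0 : (0 : ℝ) < 2 ^ s := by positivity
    constructor
    · rw [Int.le_floor, e1]
      push_cast
      exact mul_le_mul_of_nonneg_left h4 h0.le
    · rw [Int.floor_lt, e1]
      push_cast
      exact mul_lt_mul_of_pos_left h5 h0

/-- **Regularity of the rows on parts of the event.** -/
theorem rrg {S : FCl m} (N p₁ p₂ : ℕ) (h12 : p₁ ≤ p₂) (hN : p₂ ≤ N) {η : ℝ} (hη : 0 < η) :
    Clg S (fun J F A => ∀ E : F.Ω → Prop, Sub E A → 0 < Pe F.p E →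
      CH (Pool.Agent.H49.Ent.cond F.p E True) (F.X (p₂ * (J / N)))
        (fun ω => (F.X (p₁ * (J / N)) ω, F.W ω)) ≤
      CH (Pool.Agent.H49.Ent.cond F.p A True) (F.X (p₂ * (J / N)))
        (fun ω => (F.X (p₁ * (J / N)) ω, F.W ω)) + η * J) := by
  classical
  have hl2 : 0 < Real.log 2 := Real.log_pos (by norm_num)
  obtain ⟨η₁, hη₁⟩ : ∃ η₁, η₁ = η / 2 := ⟨_, rfl⟩
  have hη0 : 0 < η₁ := by rw [hη₁]; positivity
  obtain ⟨M, hM⟩ := exists_nat_gt (m * Real.log 2 / η₁)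
  rw [div_lt_iff₀ hη0] at hM
  refine Clg.one (rwl m N p₁ p₂ M η₁) fun κ hκ => ?_
  obtain ⟨J₁, hJ₁⟩ := exp_small (a := κ / 2)
    (b := min (1 / 2) (η₁ / (2 * (m * Real.log 2 + η₁)))) (half_pos hκ)
    (lt_min (by norm_num) (by positivity))
  refine ⟨1, one_pos, J₁, fun J hJ F A hA hSb E hE hPE => ?_⟩
  have hJ0 : (0 : ℝ) ≤ J := Nat.cast_nonneg J
  have hPA : 0 < Pe F.p A := lt_of_lt_of_le (Real.exp_pos _) hA.2
  have hle : p₁ * (J / N) ≤ p₂ * (J / N) := Nat.mul_le_mul_right _ h12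
  have hleJ : p₂ * (J / N) - p₁ * (J / N) ≤ J := (Nat.sub_le _ _).trans
    ((Nat.mul_le_mul_right _ hN).trans (Nat.mul_div_le J N))
  have hleJ' : ((p₂ * (J / N) - p₁ * (J / N) : ℕ) : ℝ) ≤ J := by exact_mod_cast hleJ
  have hcnt := row_cnt F hle A
  have hcnt2 : Cnt (F.X (p₂ * (J / N))) (fun ω => (F.X (p₁ * (J / N)) ω, F.W ω))
      (M * (η₁ * J)) A := by
    refine hcnt.mono ?_
    calc (m : ℝ) * (((p₂ * (J / N) - p₁ * (J / N) : ℕ) : ℝ) * Real.log 2) ≤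
        m * (J * Real.log 2) := mul_le_mul_of_nonneg_left
          (mul_le_mul_of_nonneg_right hleJ' hl2.le) (Nat.cast_nonneg m)
      _ = m * Real.log 2 * J := by ring
      _ ≤ M * η₁ * J := mul_le_mul_of_nonneg_right hM.le hJ0
      _ = M * (η₁ * J) := by ring
  obtain ⟨h, hh0, hc, hB⟩ := ent_stb F.isLaw (κ := κ * J) (η := η₁ * J) (by positivity) hPA hcnt2
    (fun k hk => hSb ⟨k, by change k < M + 1; omega⟩)
  have h1 := hB A (fun _ h => h) (by
    have : Real.exp (-(κ * J / 2)) ≤ 1 := by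
      rw [Real.exp_le_one_iff]
      have : 0 ≤ κ * J / 2 := by positivity
      linarith
    calc _ ≤ 1 * Pe F.p A := mul_le_mul_of_nonneg_right this (Pe_nonneg F.isLaw A)
      _ = _ := one_mul _)
  have h2 := (Cnt.hered _ _ _ A E hE hc).CH_le F.isLaw hPE
  have h3 := hcnt.CH_le F.isLaw hPA
  have h4 : (m : ℝ) * (((p₂ * (J / N) - p₁ * (J / N) : ℕ) : ℝ) * Real.log 2) ≤
      m * Real.log 2 * J := by
    calc (m : ℝ) * (((p₂ * (J / N) - p₁ * (J / N) : ℕ) : ℝ) * Real.log 2) ≤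
        m * (J * Real.log 2) := mul_le_mul_of_nonneg_left
          (mul_le_mul_of_nonneg_right hleJ' hl2.le) (Nat.cast_nonneg m)
      _ = m * Real.log 2 * J := by ring
  have e1 : κ * J / 2 = κ / 2 * J := by ring
  rw [e1] at h1
  have h5 := hJ₁ J hJ
  have h6 : Real.exp (-(κ / 2 * J)) ≤ 1 / 2 := h5.trans (min_le_left _ _)
  have h7 : Real.exp (-(κ / 2 * J)) ≤ η₁ / (2 * (m * Real.log 2 + η₁)) :=
    h5.trans (min_le_right _ _)
  have h8 : h ≤ 2 * (m * Real.log 2 + η₁) * J := by nlinarith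
  have h9 : Real.exp (-(κ / 2 * J)) * h ≤ η₁ * J := by
    calc Real.exp (-(κ / 2 * J)) * h ≤
        η₁ / (2 * (m * Real.log 2 + η₁)) * (2 * (m * Real.log 2 + η₁) * J) :=
          mul_le_mul h7 h8 hh0 (by positivity)
      _ = η₁ * J := by
          have : (0 : ℝ) < m * Real.log 2 + η₁ := by positivity
          field_simp
  rw [hη₁] at h9 h1
  linarith

/-- `rrg` for all pairs of rows of the mesh. -/
theorem rrg_all {S : FCl m} (N : ℕ) {η : ℝ} (hη : 0 < η) :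
    Clg S (fun J F A => ∀ p₁ p₂ : ℕ, p₁ ≤ p₂ → p₂ ≤ N → ∀ E : F.Ω → Prop, Sub E A →
      0 < Pe F.p E →
      CH (Pool.Agent.H49.Ent.cond F.p E True) (F.X (p₂ * (J / N)))
        (fun ω => (F.X (p₁ * (J / N)) ω, F.W ω)) ≤
      CH (Pool.Agent.H49.Ent.cond F.p A True) (F.X (p₂ * (J / N)))
        (fun ω => (F.X (p₁ * (J / N)) ω, F.W ω)) + η * J) := by
  have h := Clg.all (S := S) (N + 1) (Φ := fun p₂ J F A => ∀ p₁ < N + 1, p₁ ≤ p₂ →
      ∀ E : F.Ω → Prop, Sub E A → 0 < Pe F.p E →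
      CH (Pool.Agent.H49.Ent.cond F.p E True) (F.X (p₂ * (J / N)))
        (fun ω => (F.X (p₁ * (J / N)) ω, F.W ω)) ≤
      CH (Pool.Agent.H49.Ent.cond F.p A True) (F.X (p₂ * (J / N)))
        (fun ω => (F.X (p₁ * (J / N)) ω, F.W ω)) + η * J) (fun p₂ hp₂ =>
      Clg.all (S := S) (N + 1) (fun p₁ _ => Clg.cnd fun h12 => rrg N p₁ p₂ h12 (by omega) hη))
  refine Clg.mono (J₂ := 0) h ?_
  intro J _ F A h1 p₁ p₂ h12 hp₂
  exact h1 p₂ (by omega) p₁ (by omega) h12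

theorem unit_ge {N J : ℕ} (hN : 0 < N) (hJ : N ≤ J) : (J : ℝ) ≤ 2 * N * ((J / N : ℕ) : ℝ) := by
  have h1 : 1 ≤ J / N := Nat.div_pos hJ hN
  have h2 := Nat.div_add_mod J N
  have h3 := Nat.mod_lt J hN
  have h4 : J ≤ 2 * N * (J / N) := by
    have h5 : N ≤ N * (J / N) := Nat.le_mul_of_pos_right N h1
    calc J = N * (J / N) + J % N := h2.symm
      _ ≤ N * (J / N) + N * (J / N) := by omega
      _ = 2 * N * (J / N) := by ring
  exact_mod_cast h4

/-- **Rows which are not full are not full on all parts of the event.** -/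
theorem zr_sub {S : FCl m} (N : ℕ) {c c' : ℝ} (hc : c' < c) :
    Clg S (fun _ F A => ∀ p₁ p₂ : ℕ, p₁ < p₂ → p₂ ≤ N → Zr F c N p₁ p₂ A →
      ∀ E : F.Ω → Prop, Sub E A → 0 < Pe F.p E → Zr F c' N p₁ p₂ E) := by
  have hl2 : 0 < Real.log 2 := Real.log_pos (by norm_num)
  rcases Nat.eq_zero_or_pos N with hN | hN
  · refine Clg.of one_pos 0 fun J _ F A _ p₁ p₂ h12 hp₂ => ?_
    omega
  have hNr : (0 : ℝ) < N := by exact_mod_cast hN
  have hη : 0 < (c - c') * Real.log 2 / (2 * N) := by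
    have : 0 < c - c' := by linarith
    positivity
  refine Clg.mono (J₂ := N) (rrg_all N hη) ?_
  intro J hJ F A h p₁ p₂ h12 hp₂ hz E hE hPE
  have h1 := h p₁ p₂ h12.le hp₂ E hE hPE
  unfold Zr Zm at hz ⊢
  have h2 := unit_ge hN hJ
  have h3 : (c - c') * Real.log 2 / (2 * N) * J ≤ (c - c') * (((J / N : ℕ) : ℝ) * Real.log 2) := by
    have h4 : (c - c') * Real.log 2 / (2 * N) * J ≤
        (c - c') * Real.log 2 / (2 * N) * (2 * N * ((J / N : ℕ) : ℝ)) :=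
      mul_le_mul_of_nonneg_left h2 hη.le
    refine h4.trans (le_of_eq ?_)
    field_simp
  have h5 : ((J / N : ℕ) : ℝ) ≤ ((p₂ * (J / N) : ℕ) : ℝ) - ((p₁ * (J / N) : ℕ) : ℝ) := by
    push_cast
    have h6 : (p₁ : ℝ) + 1 ≤ p₂ := by exact_mod_cast h12
    have h7 : (0 : ℝ) ≤ ((J / N : ℕ) : ℝ) := Nat.cast_nonneg _
    nlinarith
  have h6 : (c - c') * (((J / N : ℕ) : ℝ) * Real.log 2) ≤
      (c - c') * ((((p₂ * (J / N) : ℕ) : ℝ) - ((p₁ * (J / N) : ℕ) : ℝ)) * Real.log 2) :=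
    mul_le_mul_of_nonneg_left (mul_le_mul_of_nonneg_right h5 hl2.le) (by linarith)
  nlinarith

/-- Pliss times on the parts of the event. -/
theorem pls_sub {S : FCl m} (N : ℕ) {c c' : ℝ} (hc : c' < c) :
    Clg S (fun _ F A => ∀ p : ℕ, Pls F c N p A →
      ∀ E : F.Ω → Prop, Sub E A → 0 < Pe F.p E → Pls F c' N p E) := by
  refine Clg.mono (J₂ := 0) (zr_sub N hc) ?_
  intro J _ F A h p hp E hE hPE p' hp' hN
  exact h p p' hp' hN (hp p' hp' hN) E hE hPE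

end Pool.PB
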