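import Pool.Agent.H49.FRF.Core
import Pool.Agent.H49.FRF.Rrg
import Pool.Agent.H7.SLP.H5A

/-!
# FR on families

`frf_of_fr`: the row `Pool.SLF.FRF` from `Pool.OVN.FRStmt`, in classes with spread fans.
`frf_thm`: from `Pool.OVN.BOXStmt`.
-/

set_option autoImplicit false

namespace Pool.FRF

open Finset Real MvPolynomial
open Pool.Agent.H49.Ent Pool.Agent.H32.Dense Pool.STK Pool.KA Pool.KSAT Pool.K2S Pool.PB
open Pool.SLP Pool.SLO Pool.KAL

variable {k : ℕ}

/-- The germ is closed, for the window of the record. -/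
theorem clo_coarse {J : ℕ} {F : Fam (k + 1) J} {i₁ : Fin (k + 1)} {N ρ K : ℕ} {d : SLF.Dts F}
    {p : ℕ → ℕ → ℕ} {A : F.Ω → Prop} (hd : d.OK i₁ N ρ K p A) {a g : ℕ} (ha : a ≤ ρ)
    (haJ : (a + 1) * (J / N) ≤ J) (hg : g ≤ p a a * (J / N)) {ω : F.Ω} (hω : A ω)
    {b : Fin (k + 1) → ℝ} (hb : ∀ j, |b j - bp F i₁ ω j| ≤ 1 / 2 ^ ((a + 1) * (J / N))) :
    |eval b (d.G a (ptr F (ρ * (J / N)) ω)) - eval b
      ((fun s : SLF.Sl F => d.H a (a * (J / N)) (s.1, s.2.1, s.2.2 / 2 ^
        ((a + 1) * (J / N) - a * (J / N)))) (slam F ((a + 1) * (J / N)) ω))| ≤ 1 / 2 ^ g := by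
  have h1 := hd.tb a ha a le_rfl (a * (J / N)) le_rfl le_rfl ω hω b hb
  rw [slam_coarse F (Nat.mul_le_mul_right (J / N) (Nat.le_succ a)) haJ ω] at h1
  exact h1.trans (one_div_le_one_div_of_le (by positivity) (pow_le_pow_right₀ (by norm_num) hg))

theorem frf_of_fr {S : FCl (k + 1)} (hS : SPS S (k + 1 - 2)) (hFR : Pool.OVN.FRStmt) :
    SLF.FRF S := by
  classical
  intro c h₁ X K ε hc hc1 hh hX hK hε
  have hl2 : 0 < Real.log 2 := Real.log_pos (by norm_num)
  obtain ⟨κ, π₀, δ₀, C, Y₀, hκ0, hκ1, hπ, hδ, hC, hcore⟩ :=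
    frf_core hFR k K (c / 2) (ε / 2) (by positivity) (by positivity)
  obtain ⟨Br, hBr0, hBr⟩ := rcd_clo (k + 1) K
  obtain ⟨B₂, hB₂⟩ : ∃ B₂ : ℕ, B₂ = ⌈8 * ((k : ℝ) + 1) / (c * κ)⌉₊ + 1 := ⟨_, rfl⟩
  have hB₂r : 8 * ((k : ℝ) + 1) ≤ c * κ * B₂ := by
    have h1 := Nat.le_ceil (8 * ((k : ℝ) + 1) / (c * κ))
    have h2 : 8 * ((k : ℝ) + 1) / (c * κ) ≤ B₂ := by
      rw [hB₂]
      push_cast
      linarith only [h1]
    rw [div_le_iff₀ (by positivity)] at h2
    linarith only [h2]
  refine ⟨B₂, by omega, ?_⟩
  intro B₁ _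
  refine ⟨(2 * K + 3) * B₁ + 5, ?_⟩
  intro B hB
  refine ⟨1, ?_⟩
  intro L hL N Y hY1 hY2 i₁ ρ R a haR haρ hRρ hρN
  -- sizes in mesh units
  have hBL : (2 * K + 3) * B₁ * L + 5 ≤ B * L := by
    calc (2 * K + 3) * B₁ * L + 5 ≤ (2 * K + 3) * B₁ * L + 5 * L := by omega
      _ = ((2 * K + 3) * B₁ + 5) * L := by ring
      _ ≤ B * L := Nat.mul_le_mul_right _ hB
  have hYB : (2 * K + 3) * Y + 5 ≤ B * L := by
    refine le_trans ?_ hBL
    have : (2 * K + 3) * Y ≤ (2 * K + 3) * (B₁ * L) := Nat.mul_le_mul_left _ hY2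
    have e : (2 * K + 3) * (B₁ * L) = (2 * K + 3) * B₁ * L := by ring
    omega
  exact by
   have hYpos : 1 ≤ Y := by
     have h1 : 1 ≤ B₂ * L := Nat.mul_pos (by omega) (by omega)
     omega
   have h3Y : 3 * Y + 5 ≤ B * L := by
     have : 3 * Y ≤ (2 * K + 3) * Y := Nat.mul_le_mul_right _ (by omega)
     omega
   have h2KY : (2 * K + 1) * Y ≤ B * L := by
     have : (2 * K + 1) * Y ≤ (2 * K + 3) * Y := Nat.mul_le_mul_right _ (by omega)
     omega
   have hρN' : ρ ≤ N := by
     have h1 : (0 : ℝ) ≤ X * N := by positivity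
     have h2 : (ρ : ℝ) ≤ N := by linarith only [hρN, h1]
     exact_mod_cast h2
   have hNpos : 0 < N := by omega
   have hNr : (0 : ℝ) < N := by exact_mod_cast hNpos
   have hYr : (1 : ℝ) ≤ Y := by exact_mod_cast hYpos
   have hBpos : 0 < B := by
     rcases Nat.eq_zero_or_pos B with h0 | h0
     · rw [h0, Nat.zero_mul] at h3Y
       omega
     · exact h0
   have hBr' : (0 : ℝ) < B := by exact_mod_cast hBpos
   have hLr : (1 : ℝ) ≤ L := by exact_mod_cast hL
   obtain ⟨η, hη⟩ : ∃ η : ℝ, η = δ₀ * Y / (4 * N) := ⟨_, rfl⟩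
   have hη0 : 0 < η := by rw [hη]; positivity
   obtain ⟨η₂, hη₂⟩ : ∃ η₂ : ℝ, η₂ = c * κ * Real.log 2 / (8 * N * B) := ⟨_, rfl⟩
   have hη₂0 : 0 < η₂ := by rw [hη₂]; positivity
   -- the size of the unit
   obtain ⟨U₁, hU₁⟩ : ∃ U₁ : ℕ, (1 + cr k K) ≤ 2 ^ U₁ :=
     (pow_unbounded_of_one_lt _ (by norm_num)).imp fun _ h => h.le
   exact by
    obtain ⟨U₂, hU₂⟩ := exists_nat_gt (2 * (((k + 1 : ℕ) : ℝ) * Br) / δ₀)
    obtain ⟨U₃, hU₃⟩ := exists_nat_gt (2 * C / ε)
    obtain ⟨U, hU⟩ : ∃ U : ℕ, U = Y₀ + U₁ + U₂ + U₃ + 1 := ⟨_, rfl⟩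
    have hpos : Clg S (fun _ F A => 0 < Pe F.p A) :=
      Clg.of one_pos 0 fun J _ F A hA => lt_of_lt_of_le (Real.exp_pos _) hA.2
    refine Clg.mono (J₂ := N * U) ((hpos.and (mkf_clg hS hh hη0)).and (rrg_all N hη₂0)) ?_
    rintro J hJ F A ⟨⟨hA, hmk⟩, hrr⟩ hCh hPls hGC p d hd hgap
    have hM := hmk i₁ hCh
    have hq : IsLaw (SLF.Qa F A) := isLaw_cond F.isLaw hA
    have hqA : ∀ ω, 0 < SLF.Qa F A ω → A ω := fun ω hω => SLP.of_cond_pos hω
    obtain ⟨u, hu⟩ : ∃ u, u = J / N := ⟨_, rfl⟩
    have huU : U ≤ u := by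
      rw [hu, Nat.le_div_iff_mul_le hNpos]
      calc U * N = N * U := Nat.mul_comm _ _
        _ ≤ J := hJ
    have hNJ : N ≤ J := by
      refine le_trans ?_ hJ
      exact Nat.le_mul_of_pos_right N (by omega)
    have hJu : (J : ℝ) ≤ 2 * N * (u : ℝ) := by
      rw [hu]
      exact unit_ge hNpos hNJ
    have hur : (1 : ℝ) ≤ u := by
      have : 1 ≤ u := by omega
      exact_mod_cast this
    have hNu : N * u ≤ J := by rw [hu]; exact Nat.mul_div_le J N
    obtain ⟨hgap1, hgap2⟩ := hgap
    obtain ⟨hBR, hGC⟩ := hGC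
    obtain ⟨a₁, ha₁⟩ : ∃ a₁, a₁ = a - B * L := ⟨_, rfl⟩
    have ha₁a : a₁ + B * L = a := by omega
    have ha₁ρ : a₁ ≤ ρ := by omega
    exact by
     have ha₁R : a₁ + 1 ≤ R := by omega
     rw [← ha₁] at hgap2
     have hα : (a₁ + 1) * u ≤ J := by
       refine le_trans (Nat.mul_le_mul_right _ ?_) hNu
       omega
     have hgp : (R + B * L) * u ≤ p a₁ a₁ * u := Nat.mul_le_mul_right _ hgap2
     have hRJ : R * u ≤ J := by
       refine le_trans (Nat.mul_le_mul_right _ ?_) hNu
       omega
     have hαR : (a₁ + 1) * u ≤ R * u := Nat.mul_le_mul_right _ ha₁R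
     have hkey := hcore J F i₁ (SLF.Qa F A) (ρ * u) ((a₁ + 1) * u) ((a + 2) * u) (R * u) (Y * u)
       ((R + B * L) * u) (d.G a₁) (SLF.own F N ρ d a) hq
       (by
         calc Y₀ ≤ u := by omega
           _ = 1 * u := (Nat.one_mul u).symm
           _ ≤ Y * u := Nat.mul_le_mul_right _ hYpos)
       (by
         calc (a₁ + 1) * u + 3 * (Y * u) = (a₁ + 1 + 3 * Y) * u := by ring
           _ ≤ (a + 2) * u := Nat.mul_le_mul_right _ (by omega))
       (by
         calc (2 * K + 1) * (Y * u) = (2 * K + 1) * Y * u := by ring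
           _ ≤ R * u := Nat.mul_le_mul_right _ (by omega))
       (by
         calc R * u + Y * u = (R + Y) * u := by ring
           _ ≤ (R + B * L) * u := Nat.mul_le_mul_right _ (by omega))
       (Nat.mul_le_mul_right _ (by omega)) hα
       (by
         have h1 : U₁ ≤ B * L * u := by
           calc U₁ ≤ u := by omega
             _ = 1 * u := (Nat.one_mul u).symm
             _ ≤ B * L * u := Nat.mul_le_mul_right _ (by omega)
         have h2 : (2 : ℝ) ^ ((R + B * L) * u) = 2 ^ (R * u) * 2 ^ (B * L * u) := by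
           rw [← pow_add]
           congr 1
           ring
         rw [h2, div_le_div_iff₀ (by positivity) (by positivity)]
         have h3 : (2 : ℝ) ^ U₁ ≤ 2 ^ (B * L * u) := pow_le_pow_right₀ (by norm_num) h1
         have h4 : (0 : ℝ) < 2 ^ (R * u) := by positivity
         calc (1 + cr k K) * 2 ^ (R * u) ≤ 2 ^ (B * L * u) * 2 ^ (R * u) :=
               mul_le_mul_of_nonneg_right (hU₁.trans h3) h4.le
           _ = 1 * (2 ^ (R * u) * 2 ^ (B * L * u)) := by ring)
       (hd.dG a₁) (fun ω _ => hd.dG a _)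
       (by
         intro ω hω
         have h1 := hd.on a₁ ha₁ρ ω (hqA ω hω)
         unfold SLF.own at h1
         rw [← hu] at h1
         exact h1.trans (one_div_le_one_div_of_le (by positivity)
           (pow_le_pow_right₀ (by norm_num) hgp)))
       (by
         intro ω hω b hb j
         have h1 := hd.gr a₁ ha₁ρ ω (hqA ω hω) b (by rw [← hu]; exact hb) j
         unfold SLF.own at h1
         rw [← hu] at h1
         exact h1)
       (by
         intro ω hω b hb
         have h1 := hd.cm a₁ a (by omega) haρ ω (hqA ω hω) b (by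
           intro j
           rw [← hu]
           refine (hb j).trans (one_div_le_one_div_of_le (by positivity)
             (pow_le_pow_right₀ (by norm_num) (Nat.mul_le_mul_right _ (by omega)))))
         rw [← hu] at h1
         refine le_trans (le_of_eq ?_) (h1.trans (one_div_le_one_div_of_le (by positivity)
           (pow_le_pow_right₀ (by norm_num) hgp)))
         unfold SLF.own
         rw [← hu])
       (by
         have hclo := hBr J F i₁ (ρ * u) ((a₁ + 1) * u) ((R + B * L) * u) ((R + B * L) * u)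
           (SLF.Qa F A) (d.G a₁) (fun s : SLF.Sl F => d.H a₁ (a₁ * u) (s.1, s.2.1, s.2.2 / 2 ^
             ((a₁ + 1) * u - a₁ * u))) hq hα le_rfl (hd.dG a₁) (fun s => hd.dH _ _ _)
           (by
             intro ω hω b hb
             have h1 := clo_coarse hd (g := (R + B * L) * u) ha₁ρ (by rw [← hu]; exact hα)
               (by rw [← hu]; exact hgp) (hqA ω hω) (b := b) (by rw [← hu]; exact hb)
             rw [← hu] at h1
             exact h1)
         have h1 := hM.tan hA (rcd F i₁ (ρ * u) ((a₁ + 1) * u) ((R + B * L) * u) (d.G a₁)) hαR hRJ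
           (fun ω ω' _ _ hh => rcd_pt (le_trans (Nat.mul_le_mul_right _ hρN') hNu) hα hh)
           (fun ω ω' _ _ hh => ((bc_iff F i₁ hα ω ω').1
             (Prod.ext_iff.1 (Prod.ext_iff.1 hh).1).2).2) hclo
         have e1 : (((k + 1 : ℕ) : ℝ) - 1) = k := by
           push_cast
           ring
         rw [e1] at h1
         refine le_trans ?_ h1
         have h2 : η * J ≤ δ₀ * Y * u / 2 := by
           calc η * J ≤ η * (2 * N * u) := mul_le_mul_of_nonneg_left hJu hη0.le
             _ = δ₀ * Y * u / 2 := by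
                 rw [hη]
                 field_simp
                 ring
         have h3 : ((k + 1 : ℕ) : ℝ) * Br ≤ δ₀ * Y * u / 2 := by
           have h4 : 2 * (((k + 1 : ℕ) : ℝ) * Br) / δ₀ ≤ u := by
             refine hU₂.le.trans ?_
             have : U₂ ≤ u := by omega
             exact_mod_cast this
           rw [div_le_iff₀ hδ] at h4
           have h5 : (u : ℝ) * δ₀ ≤ δ₀ * Y * u := by
             have : 0 ≤ δ₀ * u := by positivity
             nlinarith only [hYr, this]
           linarith only [h4, h5]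
         have e2 : ((Y * u : ℕ) : ℝ) = Y * u := by push_cast; ring
         rw [e2]
         linarith only [h2, h3])
       (by
         intro R' h hh' hR' hRP E hE
         obtain ⟨B', hB'⟩ : ∃ B' : F.Ω → Prop, B' = fun ω => A ω ∧ ω ∈ E := ⟨_, rfl⟩
         have hrs : Pool.Agent.H49.Ent.cond (SLF.Qa F A) (fun ω => ω ∈ E) True =
             Pool.Agent.H49.Ent.cond F.p B' True := by
           rw [hB']
           exact Pool.K2S.Piece.cond_inter hA.ne'
         have hsub : Sub B' A := by
           intro ω hω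
           rw [hB'] at hω
           exact hω.1
         have hB0 : 0 < Pe F.p B' := by
           have h1 : Pe (Pool.Agent.H49.Ent.cond F.p A True) (fun ω => ω ∈ E) =
               Pe F.p (fun ω => A ω ∧ ω ∈ E) / Pe F.p A := Pe_cond _
           have h2 : π₀ ≤ Pe (Pool.Agent.H49.Ent.cond F.p A True) (fun ω => ω ∈ E) := hE
           rw [h1, le_div_iff₀ hA] at h2
           rw [hB']
           exact lt_of_lt_of_le (mul_pos hπ hA) h2
         rw [hrs]
         have hpB : IsLaw (Pool.Agent.H49.Ent.cond F.p B' True) := isLaw_cond F.isLaw hB0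
         have hLu : 0 < L * u := Nat.mul_pos (by omega) (by omega)
         have hwin := rows_win hpB F.x F.W ((R - B * L) * u) (L * u) B (c := c) (d := η₂ * J)
           hLu (by push_cast; linarith only [hc1, (Nat.cast_nonneg k : (0 : ℝ) ≤ k)]) (by positivity)
           (by
             intro l hl
             have hl1 : (l + 1) * L ≤ B * L := Nat.mul_le_mul_right _ (by omega)
             have e0 : (l + 1) * L = l * L + L := by ring
             have z := hGC l (by omega)
             have h12 : R + l * L - B * L ≤ R + (l + 1) * L - B * L := by omega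
             have hrr1 := hrr _ _ h12 (by omega) B' hsub hB0
             unfold Zr Zm at z
             have e1 : (R + (l + 1) * L - B * L) * (J / N) = (R - B * L) * u + (l + 1) * (L * u) := by
               rw [← hu]
               have : R + (l + 1) * L - B * L = (R - B * L) + (l + 1) * L := by omega
               rw [this]
               ring
             have e2 : (R + l * L - B * L) * (J / N) = (R - B * L) * u + l * (L * u) := by
               rw [← hu]
               have : R + l * L - B * L = (R - B * L) + l * L := by omega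
               rw [this]
               ring
             rw [e1, e2] at z hrr1
             refine hrr1.trans ?_
             have e3 : ((((R - B * L) * u + (l + 1) * (L * u) : ℕ) : ℝ) -
                 (((R - B * L) * u + l * (L * u) : ℕ) : ℝ)) = ((L * u : ℕ) : ℝ) := by
               push_cast
               ring
             rw [e3] at z
             linarith only [z])
           (a := R') (b := R' + h)
           (by
             have h1 : (R - B * L) * u + (2 * K + 1) * (Y * u) ≤ R * u := by
               calc (R - B * L) * u + (2 * K + 1) * (Y * u) =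
                   (R - B * L + (2 * K + 1) * Y) * u := by ring
                 _ ≤ R * u := Nat.mul_le_mul_right _ (by omega)
             omega)
           (by omega)
           (by
             refine hRP.trans (le_of_eq ?_)
             have e1 : (R - B * L) * u + B * (L * u) = (R - B * L + B * L) * u := by ring
             rw [e1, Nat.sub_add_cancel hBR])
         have hhr : κ * (Y * u) ≤ h := by
           have : ((Y * u : ℕ) : ℝ) = Y * u := by push_cast; ring
           rw [this] at hh'
           exact hh'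
         have e4 : (((R' + h : ℕ) : ℝ) - R') = h := by push_cast; ring
         rw [e4] at hwin
         refine hwin.trans ?_
         have g1 : (B : ℝ) * (η₂ * J) ≤ c / 4 * (h * Real.log 2) := by
           calc (B : ℝ) * (η₂ * J) ≤ B * (η₂ * (2 * N * u)) :=
                 mul_le_mul_of_nonneg_left (mul_le_mul_of_nonneg_left hJu hη₂0.le) hBr'.le
             _ = c / 4 * (κ * u * Real.log 2) := by
                 rw [hη₂]
                 field_simp
                 ring
             _ ≤ c / 4 * (h * Real.log 2) := by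
                 refine mul_le_mul_of_nonneg_left (mul_le_mul_of_nonneg_right ?_ hl2.le)
                   (by positivity)
                 have : κ * u ≤ κ * (Y * u) := by
                   refine mul_le_mul_of_nonneg_left ?_ hκ0.le
                   nlinarith only [hYr]
                 linarith only [hhr, this]
         have g2 : 2 * ((k + 1 : ℕ) : ℝ) * (((L * u : ℕ) : ℝ) * Real.log 2) ≤
             c / 4 * (h * Real.log 2) := by
           have g3 : (B₂ : ℝ) * L ≤ Y := by exact_mod_cast hY1
           have g4 : κ * (B₂ * L * u) ≤ h := by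
             refine le_trans (mul_le_mul_of_nonneg_left ?_ hκ0.le) hhr
             exact mul_le_mul_of_nonneg_right g3 (by positivity)
           have g5 : 8 * ((k : ℝ) + 1) * (L * u) ≤ c * κ * B₂ * (L * u) :=
             mul_le_mul_of_nonneg_right hB₂r (by positivity)
           have g6 : c * κ * B₂ * (L * u) ≤ c * h := by
             calc c * κ * B₂ * (L * u) = c * (κ * (B₂ * L * u)) := by ring
               _ ≤ c * h := mul_le_mul_of_nonneg_left g4 hc.le
           have g7 := mul_le_mul_of_nonneg_right (g5.trans g6) hl2.le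
           push_cast
           linarith only [g7]
         have e5 : ((k + 1 : ℕ) : ℝ) = k + 1 := by push_cast; ring
         rw [e5] at g2 ⊢
         have g8 : ((k : ℝ) + 1 - c / 2) * (h * Real.log 2) = (k + 1 - c) * (h * Real.log 2) +
             c / 4 * (h * Real.log 2) + c / 4 * (h * Real.log 2) := by ring
         rw [g8]
         linarith only [g1, g2])
     exact by
      have hfin : CH (SLF.Qa F A) (SLF.shs F i₁ N ρ K d R a (Y * (J / N)))
          (SLF.bxs F i₁ N ρ K d R a 0) ≤ ε / 2 * ((Y * u : ℕ) : ℝ) + C := by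
        unfold SLF.shs SLF.bxs
        rw [← hu]
        exact hkey
      refine hfin.trans ?_
      rw [← hu]
      have h1 : C ≤ ε / 2 * ((Y * u : ℕ) : ℝ) := by
        have h2 : 2 * C / ε ≤ u := by
          refine hU₃.le.trans ?_
          have : U₃ ≤ u := by omega
          exact_mod_cast this
        rw [div_le_iff₀ hε] at h2
        have h3 : (u : ℝ) ≤ ((Y * u : ℕ) : ℝ) := by
          push_cast
          nlinarith only [hYr]
        have h4 : ε * u ≤ ε * ((Y * u : ℕ) : ℝ) := mul_le_mul_of_nonneg_left h3 hε.le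
        linarith only [h2, h4]
      linarith only [h1]

/-- **FRF** from the one-box statement. -/
theorem frf_thm {S : FCl (k + 1)} (hS : SPS S (k + 1 - 2)) (hB : Pool.OVN.BOXStmt) :
    SLF.FRF S := frf_of_fr hS (Pool.OVN.fr_of_box hB)

end Pool.FRF
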