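import Pool.Agent.H50.OVN.Ov
import Pool.Agent.H65.OVN.Cor
import Pool.Agent.H1.OVN.Cell
import Pool.Agent.H7.SLP.H5L

/-!
# FLAT at every pair (row, radius)

`FRStmt`: at every pair `(P, a)` the shape of the sheet on the cell of side `2 ^ (-a)` up to
`2 ^ (-(P + Y))` is a function of the context at `(a, P)`, up to `ε Y`, if the rows below `P` are
not full. Proof: for a radius `a' ∈ [a - 2 Y, a - Y)` the context at `(a', P)` gives this shape; it
is reached from the context at `(a', P - 2 K Y)` by small steps at the fixed radius `a'`, and the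
mean over `a'` of the costs (BOX) is small.
-/

set_option autoImplicit false

namespace Pool.OVN

open Finset Real MvPolynomial
open Pool.Agent.H49.Ent Pool.Agent.H32.Dense Pool.STK

/-- **FR**: FLAT at every pair `(P, a)`. -/
def FRStmt : Prop :=
  ∀ (n K : ℕ) (c ε D : ℝ), 0 < c → 0 < ε → ∃ (κ π₀ δ₀ : ℝ) (Y₀ : ℕ), 0 < κ ∧ κ ≤ 1 ∧ 0 < π₀ ∧
    0 < δ₀ ∧ ∀ (d : SDat n) (a₀ a P Y : ℕ), Y₀ ≤ Y → a₀ + 3 * Y ≤ a → (2 * K + 1) * Y ≤ P →
      d.OK K a₀ P D → d.Full a₀ P (δ₀ * Y) →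
      (∀ R h : ℕ, κ * Y ≤ h → P ≤ R + (2 * K + 1) * Y → R + h ≤ P →
        ∀ E : Set d.Om, π₀ ≤ Pool.KAF.Pr d.P E →
          CH (cond d.P (fun ω => ω ∈ E) True) (d.pnt (R + h)) (fun ω => (d.pnt R ω, d.W ω)) ≤
            (n + 1 - c) * (h * Real.log 2)) →
      CH d.P (d.shp a (P + Y)) (d.ctx a P) ≤ ε * Y

namespace Fr

open Pool.Agent.H1.OVN

variable {n : ℕ}

/-! ### Elementary facts -/

theorem coeff_zero_pul (a : ℕ) (c : Fin n → ℤ) (G : MvPolynomial (Fin n) ℝ) :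
    coeff 0 (pul a c G) = eval (fun j => (c j : ℝ) / 2 ^ a) G := by
  have h1 := Hgt.eval_pul a c G (fun _ => 0)
  have h2 : eval (fun _ : Fin n => (0 : ℝ)) (pul a c G) = coeff 0 (pul a c G) := by
    have := Hgt.eval_mon (pul a c G).totalDegree (pul a c G) le_rfl (fun _ => 0)
    rw [this]
    refine add_eq_left.2 (Finset.sum_eq_zero fun s _ => ?_)
    have h3 : Pool.M5.mono (s : Fin n → ℕ) (fun _ : Fin n => (0 : ℝ)) = 0 := by
      have h4 := s.2
      unfold Pool.M5.Mon at h4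
      rw [Finset.mem_filter] at h4
      obtain ⟨j, _, hj⟩ : ∃ j ∈ (Finset.univ : Finset (Fin n)), (s : Fin n → ℕ) j ≠ 0 := by
        by_contra hcon
        push Not at hcon
        have := Finset.sum_eq_zero hcon
        omega
      unfold Pool.M5.mono
      exact Finset.prod_eq_zero (Finset.mem_univ j) (zero_pow hj)
    rw [h3, mul_zero]
  rw [← h2, h1]
  congr 2
  funext j
  ring

/-- The corner of the small cell in the coordinates of the large cell. -/
theorem coeff_zero_small (G : MvPolynomial (Fin n) ℝ) (a s : ℕ) (c c' : Fin n → ℤ) :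
    coeff 0 (pul (a + s) c' G) = eval (fun j => (c' j : ℝ) / 2 ^ s - c j) (pul a c G) := by
  rw [coeff_zero_pul, Hgt.eval_pul]
  congr 2
  funext j
  rw [pow_add]
  field_simp
  ring

theorem shp_congr (d : SDat n) {a P : ℕ} {ω ω' : d.Om}
    (h : ∀ s, s ≠ 0 → hz P (d.ger a ω) s = hz P (d.ger a ω') s) : d.shp a P ω = d.shp a P ω' := by
  funext s
  unfold SDat.shp
  by_cases hs : s = 0
  · rw [if_pos hs, if_pos hs]
  · rw [if_neg hs, if_neg hs, h s hs]

theorem shp_ne (d : SDat n) {a P : ℕ} {ω ω' : d.Om} (h : d.shp a P ω = d.shp a P ω')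
    {s : Fin n →₀ ℕ} (hs : s ≠ 0) : hz P (d.ger a ω) s = hz P (d.ger a ω') s := by
  have h1 := congrFun h s
  unfold SDat.shp at h1
  rwa [if_neg hs, if_neg hs] at h1

theorem shp_pre (d : SDat n) {a P P' : ℕ} (hP : P' ≤ P) {ω ω' : d.Om}
    (h : d.shp a P ω = d.shp a P ω') : d.shp a P' ω = d.shp a P' ω' := by
  obtain ⟨k, rfl⟩ := Nat.exists_eq_add_of_le hP
  refine shp_congr d fun s hs => ?_
  rw [hz_pre P' k, hz_pre P' k, shp_ne d h hs]

theorem ctx_pre (d : SDat n) {a P P' : ℕ} (hP : P' ≤ P) {ω ω' : d.Om}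
    (h : d.ctx a P ω = d.ctx a P ω') : d.ctx a P' ω = d.ctx a P' ω' := by
  obtain ⟨k, rfl⟩ := Nat.exists_eq_add_of_le hP
  unfold SDat.ctx
  rw [d.ctx_W h, d.ctx_cel h]
  congr 2
  funext s
  rw [hz_pre P' k, hz_pre P' k, congrFun (d.ctx_hz h) s]

theorem ctx_shp (d : SDat n) {a P : ℕ} {ω ω' : d.Om}
    (h : d.ctx a P ω = d.ctx a P ω') : d.shp a P ω = d.shp a P ω' :=
  shp_congr d fun s _ => congrFun (d.ctx_hz h) s

theorem ctx_of (d : SDat n) {a P : ℕ} {ω ω' : d.Om} (h1 : d.W ω = d.W ω')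
    (h2 : d.cel a ω = d.cel a ω') (h3 : d.shp a P ω = d.shp a P ω')
    (h4 : hz P (d.ger a ω) 0 = hz P (d.ger a ω') 0) : d.ctx a P ω = d.ctx a P ω' := by
  unfold SDat.ctx
  rw [h1, h2]
  congr 2
  funext s
  by_cases hs : s = 0
  · rw [hs, h4]
  · exact shp_ne d h3 hs

/-! ### The start -/

/-- The context at a larger radius, with the loss `K s` of precision. -/
theorem start (n K : ℕ) : ∃ C : ℝ, 0 ≤ C ∧ ∀ (d : SDat n) (a s P q : ℕ), IsLaw d.P →
    (∀ l, (d.G l).totalDegree ≤ K) → K * s ≤ q → q ≤ P →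
    CH d.P (d.ctx a (P - q)) (d.ctx (a + s) P) ≤ C := by
  obtain ⟨C, hC, h⟩ := rup_thm n K
  refine ⟨C, hC, fun d a s P q hp hdeg hs hq => ?_⟩
  have h1 := h d a (P - q) q s hp hdeg hs
  rw [Nat.sub_add_cancel hq] at h1
  refine le_trans (CH_mono_cond hp.nonneg fun ω ω' _ _ e => ?_) h1
  simp only [Prod.mk.injEq]
  exact ⟨ctx_pre d (Nat.sub_le _ _) e, ctx_shp d e⟩

/-! ### The height at the larger radius -/

theorem rec_h (n K : ℕ) : ∃ C : ℝ, 0 ≤ C ∧ ∀ (d : SDat n) (a s P S : ℕ), IsLaw d.P →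
    (∀ l, (d.G l).totalDegree ≤ K) → S ≤ P →
    CH d.P (d.ctx a S) (fun ω => (d.shp a S ω, d.ctx (a + s) P ω)) ≤ C := by
  classical
  obtain ⟨N, hN⟩ : ∃ N : ℝ, N = Fintype.card (Pool.M5.Mon n K) := ⟨_, rfl⟩
  have hN0 : 0 ≤ N := by rw [hN]; exact Nat.cast_nonneg _
  refine ⟨Real.log (2 * (N + 2) + 1), Real.log_nonneg (by linarith only [hN]), ?_⟩
  intro d a s P S hp hdeg hS
  have h1 := CH_le_int hp.nonneg hp.sum_one (fun ω => hz S (d.ger a ω) 0)
    (fun ω => (d.shp a S ω, d.ctx (a + s) P ω)) (fun _ => N + 2) (by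
      intro ω ω' hω hω' e
      obtain ⟨e1, e2⟩ := Prod.ext_iff.1 e
      have e1' : d.shp a S ω = d.shp a S ω' := e1
      have e2' : d.ctx (a + s) P ω = d.ctx (a + s) P ω' := e2
      have hc : d.cel (a + s) ω = d.cel (a + s) ω' := d.ctx_cel e2'
      have hca : d.cel a ω = d.cel a ω' := d.cel_det (Nat.le_add_right a s) hc
      obtain ⟨z, hz'⟩ : ∃ z : Fin n → ℝ, z = fun j =>
        (d.cel (a + s) ω j : ℝ) / 2 ^ s - d.cel a ω j := ⟨_, rfl⟩
      have hz01 : ∀ j, 0 ≤ z j ∧ z j ≤ 1 := by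
        intro j
        have h := fl_off a s (d.y ω) j
        have hpw : (0 : ℝ) < 2 ^ s := by positivity
        have g1 : (d.cel a ω j : ℝ) ≤ (d.cel (a + s) ω j : ℝ) / 2 ^ s := by
          rw [le_div_iff₀ hpw]
          exact h.1
        have g2 : (d.cel (a + s) ω j : ℝ) / 2 ^ s ≤ d.cel a ω j + 1 := by
          rw [div_le_iff₀ hpw]
          exact h.2
        rw [hz']
        constructor <;> simp only <;> linarith
      have k1 : coeff 0 (d.ger (a + s) ω) = eval z (d.ger a ω) := by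
        rw [hz']
        exact coeff_zero_small _ _ _ _ _
      have k2 : coeff 0 (d.ger (a + s) ω') = eval z (d.ger a ω') := by
        rw [hz', hc, hca]
        exact coeff_zero_small _ _ _ _ _
      have k3 : |coeff 0 (d.ger (a + s) ω) - coeff 0 (d.ger (a + s) ω')| ≤ 1 / 2 ^ S := by
        have := hz_near (congrFun (d.ctx_hz e2') 0)
        rw [coeff_sub] at this
        exact this.trans (one_div_le_one_div_of_le (by positivity)
          (pow_le_pow_right₀ (by norm_num) hS))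
      have hdg : ∀ ω : d.Om, (d.ger a ω).totalDegree ≤ K := fun ω => pul_deg (hdeg _) _ _
      rw [k1, k2, Hgt.eval_mon K _ (hdg ω) z, Hgt.eval_mon K _ (hdg ω') z] at k3
      obtain ⟨u₁, hu₁⟩ : ∃ x, x = ∑ s : Pool.M5.Mon n K,
        coeff (Finsupp.equivFunOnFinite.symm (s : Fin n → ℕ)) (d.ger a ω) *
          Pool.M5.mono (s : Fin n → ℕ) z := ⟨_, rfl⟩
      obtain ⟨u₂, hu₂⟩ : ∃ x, x = ∑ s : Pool.M5.Mon n K,
        coeff (Finsupp.equivFunOnFinite.symm (s : Fin n → ℕ)) (d.ger a ω') *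
          Pool.M5.mono (s : Fin n → ℕ) z := ⟨_, rfl⟩
      rw [← hu₁, ← hu₂] at k3
      have k4 : |u₁ - u₂| ≤ N * (1 / 2 ^ S) := by
        rw [hu₁, hu₂, ← Finset.sum_sub_distrib]
        refine (Finset.abs_sum_le_sum_abs _ _).trans ?_
        have : ∀ s : Pool.M5.Mon n K, s ∈ (Finset.univ : Finset (Pool.M5.Mon n K)) →
            |coeff (Finsupp.equivFunOnFinite.symm (s : Fin n → ℕ)) (d.ger a ω) *
              Pool.M5.mono (s : Fin n → ℕ) z -
              coeff (Finsupp.equivFunOnFinite.symm (s : Fin n → ℕ)) (d.ger a ω') *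
                Pool.M5.mono (s : Fin n → ℕ) z| ≤ 1 / 2 ^ S := by
          intro s _
          rw [← sub_mul, abs_mul]
          have m1 := Hgt.mono_mem s hz01
          rw [abs_of_nonneg m1.1]
          have hs0 : (Finsupp.equivFunOnFinite.symm (s : Fin n → ℕ) : Fin n →₀ ℕ) ≠ 0 := by
            intro h0
            have h4 := s.2
            unfold Pool.M5.Mon at h4
            rw [Finset.mem_filter] at h4
            have h5 : (s : Fin n → ℕ) = 0 := by
              have := congrArg (fun f : Fin n →₀ ℕ => (f : Fin n → ℕ)) h0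
              simpa using this
            rw [h5] at h4
            simp at h4
          have m2 := hz_near (shp_ne d e1' hs0)
          rw [coeff_sub] at m2
          calc _ ≤ 1 / 2 ^ S * 1 := mul_le_mul m2 m1.2 m1.1 (by positivity)
            _ = 1 / 2 ^ S := mul_one _
        refine (Finset.sum_le_sum this).trans (le_of_eq ?_)
        rw [Finset.sum_const, nsmul_eq_mul, Finset.card_univ, hN]
      have k5 : |coeff 0 (d.ger a ω - d.ger a ω')| ≤ (N + 1) / 2 ^ S := by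
        rw [coeff_sub]
        have e3 : (N + 1) / 2 ^ S = 1 / 2 ^ S + N * (1 / 2 ^ S) := by ring
        rw [e3]
        rw [abs_le] at k3 k4 ⊢
        constructor <;> linarith only [k3, k4, k3.1, k3.2, k4.1, k4.2]
      have k6 := near_hz k5
      push_cast
      linarith only [k6])
  rw [Ex_const hp.sum_one] at h1
  refine le_trans (CH_mono_left hp.nonneg fun ω ω' _ _ e => ?_) h1
  simp only [Prod.mk.injEq] at e
  obtain ⟨e1, e2, e3⟩ := e
  exact ctx_of d (d.ctx_W e3) (d.cel_det (Nat.le_add_right a s) (d.ctx_cel e3)) e2 e1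

/-! ### Trivial shapes -/

/-- Above the radius the shape is trivial. -/
theorem shp_small (n K : ℕ) (D : ℝ) : ∃ C : ℝ, 0 ≤ C ∧ ∀ (d : SDat n) (a₀ a S Q : ℕ) (T : Type)
    (Z : d.Om → T), d.OK K a₀ Q D → a₀ ≤ a → S ≤ a → CH d.P (d.shp a S) Z ≤ C := by
  classical
  obtain ⟨C₁, hC₁, hco⟩ := Pool.SLP.coef_cube n K
  obtain ⟨M, hM⟩ : ∃ M : ℝ, M = C₁ * (|D| * n) + 1 := ⟨_, rfl⟩
  have hM0 : 0 ≤ M := by rw [hM]; positivity
  refine ⟨Fintype.card (Pool.Agent.H1.OVN.Bx n K) * Real.log (2 * (2 * M) + 1),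
    by have := Real.log_nonneg (show 1 ≤ 2 * (2 * M) + 1 by linarith only [hM0]); positivity, ?_⟩
  intro d a₀ a S Q T Z hd ha hS
  have hp := hd.law
  -- the coefficients
  have hcf : ∀ ω, 0 < d.P ω → ∀ s, s ≠ 0 → |coeff s (d.ger a ω)| ≤ (M - 1) / 2 ^ a := by
    intro ω hω s hs
    obtain ⟨A, hA⟩ : ∃ A : MvPolynomial (Fin n) ℝ,
      A = d.ger a ω - C (coeff 0 (d.ger a ω)) := ⟨_, rfl⟩
    have hAd : A.totalDegree ≤ K := by
      rw [hA]
      refine (totalDegree_sub _ _).trans (max_le (pul_deg (hd.deg _) _ _) ?_)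
      rw [totalDegree_C]
      exact Nat.zero_le _
    have hpa : (0 : ℝ) < 2 ^ a := by positivity
    have hsup : ∀ y : Fin n → ℝ, (∀ i, (0 : ℝ) ≤ y i ∧ y i ≤ 0 + 1) →
        |eval y A| ≤ |D| * n * (1 / 2 ^ a) := by
      intro y hy
      have e1 : eval y A = eval (fun j => (d.cel a ω j : ℝ) / 2 ^ a + 1 / 2 ^ a * y j)
          (d.G (d.L ω)) - eval (fun j => (d.cel a ω j : ℝ) / 2 ^ a) (d.G (d.L ω)) := by
        rw [hA, map_sub, eval_C]
        unfold SDat.ger
        rw [Hgt.eval_pul, coeff_zero_pul]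
      have hcell : ∀ j, ∀ t : ℝ, 0 ≤ t → t ≤ 1 →
          |(d.cel a ω j : ℝ) / 2 ^ a + 1 / 2 ^ a * t - d.y ω j| ≤ 1 / 2 ^ a := by
        intro j t ht0 ht1
        have h1 := Int.floor_le ((2 : ℝ) ^ a * d.y ω j)
        have h2 := Int.lt_floor_add_one ((2 : ℝ) ^ a * d.y ω j)
        have e : (d.cel a ω j : ℝ) / 2 ^ a + 1 / 2 ^ a * t - d.y ω j =
            ((⌊(2 : ℝ) ^ a * d.y ω j⌋ : ℝ) + t - 2 ^ a * d.y ω j) / 2 ^ a := by
          change (⌊(2 : ℝ) ^ a * d.y ω j⌋ : ℝ) / 2 ^ a + 1 / 2 ^ a * t - d.y ω j = _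
          field_simp
        rw [e, abs_div, abs_of_pos hpa]
        refine div_le_div_of_nonneg_right ?_ hpa.le
        rw [abs_le]
        constructor <;> linarith
      have hl := hd.lip d hω ha (fun j => (d.cel a ω j : ℝ) / 2 ^ a)
        (fun j => (d.cel a ω j : ℝ) / 2 ^ a + 1 / 2 ^ a * y j)
        (fun j => by
          have := hcell j 0 le_rfl zero_le_one
          simpa using this)
        (fun j => hcell j (y j) (hy j).1 (by linarith only [hy, (hy j).2]))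
      rw [e1]
      refine hl.trans ?_
      have h3 : ∑ j, |(d.cel a ω j : ℝ) / 2 ^ a + 1 / 2 ^ a * y j - (d.cel a ω j : ℝ) / 2 ^ a| ≤
          n * (1 / 2 ^ a) := by
        have h4 : ∀ j ∈ (Finset.univ : Finset (Fin n)),
            |(d.cel a ω j : ℝ) / 2 ^ a + 1 / 2 ^ a * y j - (d.cel a ω j : ℝ) / 2 ^ a| ≤
              1 / 2 ^ a := by
          intro j _
          rw [add_sub_cancel_left, abs_mul, abs_of_pos (by positivity : (0 : ℝ) < 1 / 2 ^ a),
            abs_of_nonneg (hy j).1]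
          have : y j ≤ 1 := by linarith only [hy, (hy j).2]
          exact mul_le_of_le_one_right (by positivity) this
        refine (Finset.sum_le_sum h4).trans (le_of_eq ?_)
        rw [Finset.sum_const, Finset.card_univ, Fintype.card_fin, nsmul_eq_mul]
      have h5 : 0 ≤ ∑ j, |(d.cel a ω j : ℝ) / 2 ^ a + 1 / 2 ^ a * y j -
          (d.cel a ω j : ℝ) / 2 ^ a| := Finset.sum_nonneg fun _ _ => abs_nonneg _
      calc D * ∑ j, |(d.cel a ω j : ℝ) / 2 ^ a + 1 / 2 ^ a * y j - (d.cel a ω j : ℝ) / 2 ^ a|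
          ≤ |D| * ∑ j, |(d.cel a ω j : ℝ) / 2 ^ a + 1 / 2 ^ a * y j -
              (d.cel a ω j : ℝ) / 2 ^ a| := mul_le_mul_of_nonneg_right (le_abs_self D) h5
        _ ≤ |D| * (n * (1 / 2 ^ a)) := mul_le_mul_of_nonneg_left h3 (abs_nonneg D)
        _ = |D| * n * (1 / 2 ^ a) := by ring
    have h1 := hco A (|D| * n * (1 / 2 ^ a)) (fun _ => 0) hAd
      (fun _ => by rw [abs_zero]; norm_num) hsup
    have h2 := (Pool.KAL.abs_coeff_le A s).trans h1
    rw [hA, coeff_sub, coeff_C, if_neg (Ne.symm hs), sub_zero] at h2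
    refine h2.trans (le_of_eq ?_)
    rw [hM]
    ring
  obtain ⟨V, hV⟩ : ∃ V : d.Om → Pool.Agent.H1.OVN.Bx n K → ℤ, V = fun ω s =>
    d.shp a S ω (ex s) := ⟨_, rfl⟩
  have hVb : ∀ ω, 0 < d.P ω → ∀ k, |(V ω k : ℝ)| ≤ M := by
    intro ω hω k
    rw [hV]
    simp only [SDat.shp]
    by_cases hk : ex k = 0
    · rw [if_pos hk, Int.cast_zero, abs_zero]
      exact hM0
    · rw [if_neg hk]
      have h1 := hcf ω hω (ex k) hk
      have h2 : |(2 : ℝ) ^ S * coeff (ex k) (d.ger a ω) - 0| ≤ M - 1 := by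
        rw [sub_zero, abs_mul, abs_of_pos (by positivity : (0 : ℝ) < 2 ^ S)]
        have h3 : (2 : ℝ) ^ S ≤ 2 ^ a := pow_le_pow_right₀ (by norm_num) hS
        have hM1 : 0 ≤ M - 1 := by rw [hM]; simp only [add_sub_cancel_right]; positivity
        calc (2 : ℝ) ^ S * |coeff (ex k) (d.ger a ω)| ≤ 2 ^ a * ((M - 1) / 2 ^ a) :=
              mul_le_mul h3 h1 (abs_nonneg _) (by positivity)
          _ = M - 1 := by field_simp
      have h4 := floor_near h2
      rw [Int.floor_zero, Int.cast_zero, sub_zero] at h4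
      have h5 : (hz S (d.ger a ω) (ex k) : ℝ) = ⌊(2 : ℝ) ^ S * coeff (ex k) (d.ger a ω)⌋ := rfl
      rw [h5]
      linarith only [h4]
  have hnear := near hp.nonneg hp.sum_one V Z (2 * M) (by
    intro ω ω' hω hω' _ k
    have h1 := hVb ω hω k
    have h2 := hVb ω' hω' k
    rw [abs_le] at h1 h2 ⊢
    constructor <;> linarith only [h1, h2, h1.1, h1.2, h2.1, h2.2])
  refine le_trans (CH_mono_left hp.nonneg fun ω ω' _ _ e => ?_) hnear
  have hv : V ω = V ω' := (Prod.ext_iff.1 e).1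
  refine shp_congr d fun s hs => ?_
  by_cases hsK : ∃ j, K < s j
  · rw [ger_hz hd.deg _ _ _ s hsK, ger_hz hd.deg _ _ _ s hsK]
  · obtain ⟨t, rfl⟩ := ex_surj s hsK
    have h1 := congrFun hv t
    rw [hV] at h1
    simp only [SDat.shp] at h1
    rwa [if_neg hs, if_neg hs] at h1

/-! ### The climb -/

theorem climb (n K : ℕ) : ∃ C : ℝ, 0 ≤ C ∧ ∀ (d : SDat n) (a s P X q : ℕ), IsLaw d.P →
    (∀ l, (d.G l).totalDegree ≤ K) → q * X ≤ P →
    CH d.P (d.ctx a P) (d.ctx (a + s) P) ≤ CH d.P (d.ctx a (P - q * X)) (d.ctx (a + s) P) +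
      ∑ i ∈ range q, (CH d.P (d.shp a (P - q * X + i * X + X)) (d.ctx a (P - q * X + i * X)) +
        C) := by
  obtain ⟨C, hC, h⟩ := rec_h n K
  refine ⟨C, hC, fun d a s P X q hp hdeg hq => ?_⟩
  have hp0 := hp.nonneg
  obtain ⟨S₀, hS₀⟩ : ∃ S₀, S₀ = P - q * X := ⟨_, rfl⟩
  rw [← hS₀]
  have key : ∀ i, i ≤ q → CH d.P (d.ctx a (S₀ + i * X)) (d.ctx (a + s) P) ≤
      CH d.P (d.ctx a S₀) (d.ctx (a + s) P) +
      ∑ j ∈ range i, (CH d.P (d.shp a (S₀ + j * X + X)) (d.ctx a (S₀ + j * X)) + C) := by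
    intro i
    induction i with
    | zero =>
      intro _
      rw [Finset.range_zero, Finset.sum_empty, zero_mul, add_zero, add_zero]
    | succ i ih =>
      intro hi
      have h1 := ih (by omega)
      rw [Finset.sum_range_succ]
      have hle : S₀ + i * X + X ≤ P := by
        have : (i + 1) * X ≤ q * X := Nat.mul_le_mul_right X hi
        have e : (i + 1) * X = i * X + X := by ring
        omega
      have e1 : S₀ + (i + 1) * X = S₀ + i * X + X := by ring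
      rw [e1]
      obtain ⟨S, hS⟩ : ∃ S, S = S₀ + i * X := ⟨_, rfl⟩
      rw [← hS] at h1 hle ⊢
      have a1 := CH_le_add hp0 (d.ctx a (S + X)) (d.ctx a S) (d.ctx (a + s) P)
      have a2 := CH_le_add hp0 (d.ctx a (S + X)) (d.shp a (S + X))
        (fun ω => (d.ctx a S ω, d.ctx (a + s) P ω))
      have a3 : CH d.P (d.shp a (S + X)) (fun ω => (d.ctx a S ω, d.ctx (a + s) P ω)) ≤
          CH d.P (d.shp a (S + X)) (d.ctx a S) :=
        CH_mono_cond hp0 fun ω ω' _ _ e => (Prod.ext_iff.1 e).1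
      have a4 : CH d.P (d.ctx a (S + X))
          (fun ω => (d.shp a (S + X) ω, (d.ctx a S ω, d.ctx (a + s) P ω))) ≤
          CH d.P (d.ctx a (S + X)) (fun ω => (d.shp a (S + X) ω, d.ctx (a + s) P ω)) :=
        CH_mono_cond hp0 fun ω ω' _ _ e => by
          simp only [Prod.mk.injEq] at e ⊢
          exact ⟨e.1, e.2.2⟩
      have a5 := h d a s P (S + X) hp hdeg hle
      linarith only [h1, a1, a2, a3, a4, a5]
  have h1 := key q le_rfl
  have e1 : S₀ + q * X = P := by omega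
  rwa [e1] at h1

/-! ### One row, all radii -/

theorem row_sum (hB : BOXStmt) (n K : ℕ) (c ε D : ℝ) (hc : 0 < c) (hε : 0 < ε) :
    ∃ (κ π₀ δ₀ C k' : ℝ) (X₀ : ℕ), 0 < κ ∧ κ ≤ 1 ∧ 0 < π₀ ∧ 0 < δ₀ ∧ 0 ≤ C ∧ 0 ≤ k' ∧
      ∀ (d : SDat n) (a₀ α S P X Y : ℕ) (δ : ℝ), X₀ ≤ X → a₀ + X ≤ α → S + X ≤ P →
        d.OK K a₀ P D → d.Full a₀ P δ → 0 ≤ δ → δ ≤ δ₀ * X → d.NF c ⌊κ * X⌋₊ S X π₀ →
        ∑ a ∈ Ico α (α + Y), CH d.P (d.shp a (S + X)) (d.ctx a S) ≤
          Y * (ε * X + C * (1 + δ)) + C * X * (k' * δ + (X + 1)) := by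
  obtain ⟨κ, π₀, δ₀, C₁, k', X₀, hκ, hκ1, hπ, hδ₀, hC₁, hbox⟩ := hB n K c ε D hc hε
  obtain ⟨Cf, hCf, hfh⟩ := Ov.fh_le n K D
  obtain ⟨C₂, hC₂, hsm⟩ := shp_small n K D
  obtain ⟨C₃, hC₃, hsh⟩ := Ov.shp_le n K
  refine ⟨κ, π₀, δ₀, C₁ * (2 + Cf) + C₂ + C₃, k', max X₀ (k' + 1), hκ, hκ1, hπ, hδ₀,
    by positivity, Nat.cast_nonneg _, ?_⟩
  intro d a₀ α S P X Y δ hX hα hSP hOK hF hδ0 hδ hNF
  have hX₀ : X₀ ≤ X := (le_max_left _ _).trans hX
  have hk' : k' + 1 ≤ X := (le_max_right _ _).trans hX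
  have hp := hOK.law
  have hp0 := hp.nonneg
  have hXr : (0 : ℝ) ≤ X := Nat.cast_nonneg _
  have hYr : (0 : ℝ) ≤ Y := Nat.cast_nonneg _
  have hkr : (0 : ℝ) ≤ k' := Nat.cast_nonneg _
  obtain ⟨f, hf⟩ : ∃ f : ℕ → ℝ, f = fun a => ε * X + C₁ * (d.df a (a + X) +
    X * d.df a (a + k') + d.Mi a S X + (d.fh a S X - d.fh (a - X) S X)) := ⟨_, rfl⟩
  -- pointwise
  have hOKS : d.OK K a₀ (S + X) D :=
    ⟨hOK.law, hOK.hW, hOK.deg, fun ω hω => (hOK.hx ω hω).trans
      (one_div_le_one_div_of_le (by positivity) (pow_le_pow_right₀ (by norm_num) hSP)), hOK.grad⟩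
  have hpt : ∀ a ∈ Ico α (α + Y), CH d.P (d.shp a (S + X)) (d.ctx a S) ≤
      (if a ≤ S then f a else 0) + (C₂ + if S < a ∧ a < S + X then C₃ * (X + 1) else 0) := by
    intro a ha
    rw [Finset.mem_Ico] at ha
    have hC3 : 0 ≤ C₃ * ((X : ℝ) + 1) := by positivity
    by_cases h1 : a ≤ S
    · rw [if_pos h1, if_neg (by omega), add_zero]
      have hFS : d.Full S (S + X) (δ₀ * X) := by
        have h2 := d.df_mono hp (a := a₀) (b := S) (b' := S + X) (c := P) (by omega) (by omega) hSP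
        have h3 := hF.le
        unfold SDat.Full
        unfold SDat.df at h2 h3
        linarith only [hδ, h2, h3]
      have h2 := hbox d a₀ S X a hX₀ hOKS hFS hNF (by omega) h1
      rw [hf]
      simp only
      linarith only [hC₂, h2]
    · rw [if_neg h1, zero_add]
      by_cases h2 : a < S + X
      · rw [if_pos ⟨by omega, h2⟩]
        have := hsh d a S X hp hOK.deg
        linarith only [hC₂, this]
      · rw [if_neg (fun h => h2 h.2), add_zero]
        exact hsm d a₀ a (S + X) P _ (d.ctx a S) hOK (by omega) (by omega)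
  refine (Finset.sum_le_sum hpt).trans ?_
  rw [Finset.sum_add_distrib, Finset.sum_add_distrib, Finset.sum_const, nsmul_eq_mul,
    Nat.card_Ico, Nat.add_sub_cancel_left]
  -- the crossing radii
  have hcr : ∑ a ∈ Ico α (α + Y), (if S < a ∧ a < S + X then C₃ * ((X : ℝ) + 1) else 0) ≤
      X * (C₃ * (X + 1)) := by
    rw [← Finset.sum_filter, Finset.sum_const, nsmul_eq_mul]
    refine mul_le_mul_of_nonneg_right ?_ (by positivity)
    have h1 : (Ico α (α + Y)).filter (fun a => S < a ∧ a < S + X) ⊆ Ico S (S + X) := by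
      intro a ha
      rw [Finset.mem_filter] at ha
      rw [Finset.mem_Ico]
      omega
    have h2 := Finset.card_le_card h1
    rw [Nat.card_Ico, Nat.add_sub_cancel_left] at h2
    exact_mod_cast h2
  -- the box radii
  have hbx : ∑ a ∈ Ico α (α + Y), (if a ≤ S then f a else 0) ≤
      Y * (ε * X) + C₁ * (2 * Y * δ + X * (k' * δ) + X * (X + Cf)) := by
    by_cases hαS : α ≤ S
    swap
    · have h0 : ∑ a ∈ Ico α (α + Y), (if a ≤ S then f a else 0) = 0 := by
        refine Finset.sum_eq_zero fun a ha => ?_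
        rw [Finset.mem_Ico] at ha
        rw [if_neg (by omega)]
      rw [h0]
      positivity
    obtain ⟨β, hβ⟩ : ∃ β, β = min (α + Y) (S + 1) := ⟨_, rfl⟩
    have hαβ : α ≤ β := by omega
    have hβY : β ≤ α + Y := by omega
    have hβS : β ≤ S + 1 := by omega
    have e0 : ∑ a ∈ Ico α (α + Y), (if a ≤ S then f a else 0) = ∑ a ∈ Ico α β, f a := by
      rw [← Finset.sum_filter]
      refine Finset.sum_congr ?_ fun _ _ => rfl
      ext a
      rw [Finset.mem_filter, Finset.mem_Ico, Finset.mem_Ico]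
      omega
    rw [e0]
    have hcard : ((Ico α β).card : ℝ) ≤ Y := by
      rw [Nat.card_Ico]
      have : β - α ≤ Y := by omega
      exact_mod_cast this
    have hdf : ∀ a b, a₀ ≤ a → a ≤ b → b ≤ P → d.df a b ≤ δ := fun a b h1 h2 h3 =>
      (d.df_mono hp h1 h2 h3).trans hF.le
    have s1 : ∑ a ∈ Ico α β, d.df a (a + X) ≤ Y * δ := by
      refine (Finset.sum_le_sum (g := fun _ => δ) fun a ha => ?_).trans ?_
      · rw [Finset.mem_Ico] at ha
        exact hdf a (a + X) (by omega) (by omega) (by omega)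
      · rw [Finset.sum_const, nsmul_eq_mul]
        exact mul_le_mul_of_nonneg_right hcard hδ0
    have s2 : ∑ a ∈ Ico α β, d.df a (a + k') ≤ k' * δ := by
      have h1 := Ov.tele (fun a => d.df a₀ a) α β k' hαβ δ
        (fun a h1 h2 => d.df_nonneg hp (by omega))
        (fun a h1 h2 => hdf a₀ a le_rfl (by omega) (by omega))
      refine le_trans (le_of_eq (Finset.sum_congr rfl fun a ha => ?_)) h1
      rw [Finset.mem_Ico] at ha
      have := d.df_add hp (a := a₀) (b := a) (c := a + k') (by omega) (by omega)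
      linarith only [this]
    have s3 : ∑ a ∈ Ico α β, d.Mi a S X ≤ Y * δ := by
      refine (Finset.sum_le_sum (g := fun _ => δ) fun a ha => ?_).trans ?_
      · rw [Finset.mem_Ico] at ha
        exact (d.Mi_le hp (by omega)).trans (hdf a (S + X) (by omega) (by omega) (by omega))
      · rw [Finset.sum_const, nsmul_eq_mul]
        exact mul_le_mul_of_nonneg_right hcard hδ0
    have s4 : ∑ a ∈ Ico α β, (d.fh a S X - d.fh (a - X) S X) ≤ X * (X + Cf) := by
      have hlog : Real.log 2 ≤ 1 := by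
        have := Real.log_two_lt_d9
        linarith only [this]
      have hM : (X : ℝ) * Real.log 2 + Cf ≤ X + Cf := by nlinarith only [hlog]
      by_cases hXβ : α - X ≤ β - X
      swap
      · omega
      have h1 := Ov.tele (fun a => d.fh a S X) (α - X) (β - X) X hXβ (X + Cf)
        (fun a h1 h2 => CH_nonneg hp0 _ _)
        (fun a h1 h2 => (hfh d a₀ a S X hOKS (by omega) (by omega)).trans hM)
      refine le_trans (le_of_eq ?_) h1
      have e1 : Ico α β = Ico (α - X + X) (β - X + X) := by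
        congr 1 <;> omega
      rw [e1, ← Finset.sum_Ico_add' (fun a => d.fh a S X - d.fh (a - X) S X) (α - X) (β - X) X]
      refine Finset.sum_congr rfl fun a _ => ?_
      simp only [Nat.add_sub_cancel]
    have s5 : ∑ _a ∈ Ico α β, ε * (X : ℝ) ≤ Y * (ε * X) := by
      rw [Finset.sum_const, nsmul_eq_mul]
      exact mul_le_mul_of_nonneg_right hcard (by positivity)
    have key2 : ∑ a ∈ Ico α β, f a =
        (∑ _a ∈ Ico α β, ε * (X : ℝ)) + C₁ * ((∑ a ∈ Ico α β, d.df a (a + X)) +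
        X * (∑ a ∈ Ico α β, d.df a (a + k')) +
        (∑ a ∈ Ico α β, d.Mi a S X) + ∑ a ∈ Ico α β, (d.fh a S X - d.fh (a - X) S X)) := by
      rw [hf, Finset.sum_add_distrib]
      congr 1
      rw [← Finset.mul_sum, Finset.sum_add_distrib, Finset.sum_add_distrib,
        Finset.sum_add_distrib]
      congr 4
      rw [← Finset.mul_sum]
    rw [key2]
    have t1 := mul_le_mul_of_nonneg_left s2 hXr
    have t2 : (∑ a ∈ Ico α β, d.df a (a + X)) + X * (∑ a ∈ Ico α β, d.df a (a + k')) +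
        (∑ a ∈ Ico α β, d.Mi a S X) + ∑ a ∈ Ico α β, (d.fh a S X - d.fh (a - X) S X) ≤
        2 * Y * δ + X * (k' * δ) + X * (X + Cf) := by linarith only [s1, s3, s4, t1]
    have t3 := mul_le_mul_of_nonneg_left t2 hC₁
    linarith only [s5, t3]
  have t4 : Y * (ε * X) + C₁ * (2 * Y * δ + X * (k' * δ) + X * (X + Cf)) +
      (Y * C₂ + X * (C₃ * (X + 1))) ≤
      Y * (ε * X + (C₁ * (2 + Cf) + C₂ + C₃) * (1 + δ)) +
        (C₁ * (2 + Cf) + C₂ + C₃) * X * (k' * δ + (X + 1)) := by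
    have u1 : 0 ≤ Y * (C₁ * (2 + Cf)) := by positivity
    have u2 : 0 ≤ Y * (C₁ * Cf * δ) := by positivity
    have u3 : 0 ≤ Y * ((C₂ + C₃) * δ) := by positivity
    have u4 : 0 ≤ Y * C₃ := by positivity
    have u5 : 0 ≤ C₁ * X * ((1 + Cf) * (k' * δ)) := by positivity
    have u6 : 0 ≤ (C₂ + C₃) * X * (k' * δ) := by positivity
    have u7 : 0 ≤ C₂ * X * (X + 1) := by positivity
    have u8 : 0 ≤ C₁ * X * (X + 2 + Cf * X) := by positivity
    nlinarith only [u1, u2, u3, u4, u5, u6, u7, u8, u1, u2, u3, u4, u5, u6, u7, u8]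
  linarith only [hcr, hbx, t4]

end Fr

open Fr in
/-- **FR from BOX.** -/
theorem fr_of_box (hB : BOXStmt) : FRStmt := by
  intro n K c ε D hc hε
  obtain ⟨Cd, hCd, hrdn⟩ := Pool.Agent.H1.OVN.rdn_thm n K
  obtain ⟨Cs, hCs, hst⟩ := start n K
  obtain ⟨Cr, hCr, hcl⟩ := climb n K
  obtain ⟨K', hK'⟩ : ∃ K' : ℝ, K' = 2 * K + 1 := ⟨_, rfl⟩
  have hK1 : 1 ≤ K' := by
    rw [hK']
    have : (0 : ℝ) ≤ K := Nat.cast_nonneg _
    linarith only
  obtain ⟨κ₁, π₀, δ₁, C, k', X₀, hκ₁, hκ1, hπ, hδ₁, hC, hk', hrow⟩ :=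
    row_sum hB n K c (ε / (8 * K')) D hc (by positivity)
  -- the number of small steps in `Y`
  obtain ⟨M, hM1, hMK, hMC⟩ : ∃ M : ℕ, 1 ≤ M ∧ 2 * K ≤ M ∧ 8 * (C * K') ≤ ε * M := by
    obtain ⟨M₁, hM₁⟩ := exists_nat_ge (8 * (C * K') / ε)
    refine ⟨max 1 (max (2 * K) M₁), le_max_left _ _,
      (le_max_left _ _).trans (le_max_right _ _), ?_⟩
    have h1 : (M₁ : ℝ) ≤ ((max 1 (max (2 * K) M₁) : ℕ) : ℝ) := by
      exact_mod_cast (le_max_right (2 * K) M₁).trans (le_max_right _ _)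
    have h2 := hM₁.trans h1
    rw [div_le_iff₀ hε] at h2
    linarith only [h2]
  have hMr : (1 : ℝ) ≤ M := by exact_mod_cast hM1
  have hM0 : (0 : ℝ) < M := by linarith only [hMr]
  obtain ⟨q, hq⟩ : ∃ q, q = 2 * K * (M + 1) := ⟨_, rfl⟩
  have hqr : (0 : ℝ) ≤ q := Nat.cast_nonneg _
  obtain ⟨δ₀, hδ₀, hδa, hδb⟩ : ∃ δ₀ : ℝ, 0 < δ₀ ∧ δ₀ ≤ δ₁ / (2 * M) ∧
      δ₀ * (q * C + C * K' * k') ≤ ε / 8 := by
    refine ⟨min (δ₁ / (2 * M)) (ε / (8 * (q * C + C * K' * k' + 1))),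
      lt_min (by positivity) (by positivity), min_le_left _ _, ?_⟩
    have h1 : 0 ≤ q * C + C * K' * k' := by positivity
    calc min (δ₁ / (2 * M)) (ε / (8 * (q * C + C * K' * k' + 1))) * (q * C + C * K' * k')
        ≤ ε / (8 * (q * C + C * K' * k' + 1)) * (q * C + C * K' * k') :=
          mul_le_mul_of_nonneg_right (min_le_right _ _) h1
      _ = ε / 8 * ((q * C + C * K' * k') / (q * C + C * K' * k' + 1)) := by field_simp
      _ ≤ ε / 8 * 1 := by
          refine mul_le_mul_of_nonneg_left ?_ (by positivity)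
          rw [div_le_one (by linarith only [h1])]
          linarith only
      _ = ε / 8 := mul_one _
  -- the constants
  obtain ⟨Cc, hCc⟩ : ∃ Cc, Cc = Cd + Cs + q * Cr + q * C + C * K' := ⟨_, rfl⟩
  obtain ⟨Y₁, hY₁⟩ := exists_nat_ge (8 * Cc / ε + 4 * M / κ₁)
  refine ⟨κ₁ / (4 * M), π₀, δ₀, max (max Y₁ (M * X₀)) (max (M * M) (2 * M)), by positivity, ?_, hπ,
    hδ₀, ?_⟩
  · rw [div_le_one (by positivity)]
    linarith only [hκ1, hMr]
  intro d a₀ a P Y hY ha hP hOK hF hNF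
  have hp := hOK.law
  have hp0 := hp.nonneg
  have hY1 : Y₁ ≤ Y := ((le_max_left _ _).trans (le_max_left _ _)).trans hY
  have hY2 : M * X₀ ≤ Y := ((le_max_right _ _).trans (le_max_left _ _)).trans hY
  have hY3 : M * M ≤ Y := ((le_max_left _ _).trans (le_max_right _ _)).trans hY
  have hY4 : 2 * M ≤ Y := ((le_max_right _ _).trans (le_max_right _ _)).trans hY
  have hYpos : 0 < Y := by omega
  have hYr : (0 : ℝ) < Y := by exact_mod_cast hYpos
  have hY1r : 8 * Cc / ε + 4 * M / κ₁ ≤ Y := hY₁.trans (by exact_mod_cast hY1)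
  have hCc0 : 0 ≤ Cc := by rw [hCc]; positivity
  have hYa : Cc ≤ ε / 8 * Y := by
    have h1 : 8 * Cc / ε ≤ Y := by
      have : 0 ≤ 4 * M / κ₁ := by positivity
      linarith only [hY1r, this]
    rw [div_le_iff₀ hε] at h1
    linarith only [h1]
  have hYb : 4 * M ≤ κ₁ * Y := by
    have h1 : 4 * M / κ₁ ≤ Y := by
      have : 0 ≤ 8 * Cc / ε := by positivity
      linarith only [hY1r, this]
    rw [div_le_iff₀ hκ₁] at h1
    linarith only [h1]
  -- the small step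
  obtain ⟨X, hX⟩ : ∃ X, X = Y / M := ⟨_, rfl⟩
  have hMX : M * X ≤ Y := by rw [hX]; exact Nat.mul_div_le Y M
  have hMX' : Y < M * (X + 1) := by
    rw [hX]
    exact Nat.lt_mul_div_succ Y (by omega)
  have hXM : M ≤ X := by
    rw [hX, Nat.le_div_iff_mul_le (by omega)]
    exact hY3
  have hX₀ : X₀ ≤ X := by
    rw [hX, Nat.le_div_iff_mul_le (by omega), mul_comm]
    exact hY2
  have hXY : X ≤ Y := by
    calc X = 1 * X := (one_mul X).symm
      _ ≤ M * X := Nat.mul_le_mul_right X hM1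
      _ ≤ Y := hMX
  have hXr : (Y : ℝ) / (2 * M) ≤ X := by
    rw [div_le_iff₀ (by positivity)]
    have h1 : (Y : ℝ) < M * (X + 1) := by exact_mod_cast hMX'
    have h2 : (M : ℝ) ≤ M * X := by
      have : (1 : ℝ) ≤ X := by
        have : 1 ≤ X := by omega
        exact_mod_cast this
      nlinarith only [this]
    nlinarith only [h1, h2]
  have hXMr : (M : ℝ) * X ≤ Y := by exact_mod_cast hMX
  have hX0 : (0 : ℝ) ≤ X := Nat.cast_nonneg _
  have hqX : q * X ≤ (2 * K + 1) * Y := by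
    have e1 : q * X = 2 * K * (M * X) + 2 * K * X := by rw [hq]; ring
    have e2 : 2 * K * (M * X) ≤ 2 * K * Y := Nat.mul_le_mul_left _ hMX
    have e3 : 2 * K * X ≤ M * X := Nat.mul_le_mul_right _ hMK
    have e4 : (2 * K + 1) * Y = 2 * K * Y + Y := by ring
    omega
  have hqXr : (q : ℝ) * X ≤ K' * Y := by
    rw [hK']
    exact_mod_cast hqX
  have hqXP : q * X ≤ P := hqX.trans hP
  have hq2 : K * (2 * Y) ≤ q * X := by
    have e1 : q * X = 2 * K * (M * X + X) := by rw [hq]; ring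
    have e2 : Y ≤ M * X + X := by
      have : M * (X + 1) = M * X + M := by ring
      omega
    rw [e1]
    calc K * (2 * Y) = 2 * K * Y := by ring
      _ ≤ 2 * K * (M * X + X) := Nat.mul_le_mul_left _ e2
  obtain ⟨S₀, hS₀⟩ : ∃ S₀, S₀ = P - q * X := ⟨_, rfl⟩
  -- the rows
  obtain ⟨δ, hδ⟩ : ∃ δ : ℝ, δ = δ₀ * Y := ⟨_, rfl⟩
  have hδ0 : 0 ≤ δ := by rw [hδ]; positivity
  have hδX : δ ≤ δ₁ * X := by
    rw [hδ]
    calc δ₀ * Y ≤ δ₁ / (2 * M) * Y := mul_le_mul_of_nonneg_right hδa hYr.le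
      _ = δ₁ * (Y / (2 * M)) := by ring
      _ ≤ δ₁ * X := mul_le_mul_of_nonneg_left hXr hδ₁.le
  obtain ⟨g, hg⟩ : ∃ g : ℕ → ℕ → ℝ, g = fun i a' =>
    CH d.P (d.shp a' (S₀ + i * X + X)) (d.ctx a' (S₀ + i * X)) := ⟨_, rfl⟩
  obtain ⟨α, hα⟩ : ∃ α, α = a - 2 * Y := ⟨_, rfl⟩
  have hrows : ∀ i, i < q → ∑ a' ∈ Ico α (α + Y), g i a' ≤
      Y * (ε / (8 * K') * X + C * (1 + δ)) + C * X * (k' * δ + (X + 1)) := by
    intro i hi
    have hle : S₀ + i * X + X ≤ P := by
      have h1 : (i + 1) * X ≤ q * X := Nat.mul_le_mul_right X hi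
      have e : (i + 1) * X = i * X + X := by ring
      omega
    rw [hg]
    rw [← hδ] at hF
    refine hrow d a₀ α (S₀ + i * X) P X Y δ hX₀ (by omega) hle hOK hF hδ0 hδX ?_
    intro j hj E hE
    obtain ⟨h, hh⟩ : ∃ h, h = ⌊κ₁ * X⌋₊ := ⟨_, rfl⟩
    rw [← hh] at hj ⊢
    have e1 : S₀ + i * X + (j + 1) * h = S₀ + i * X + j * h + h := by ring
    rw [e1]
    refine hNF (S₀ + i * X + j * h) h ?_ ?_ ?_ E hE
    · have h1 : κ₁ * X < h + 1 := by
        rw [hh]
        exact Nat.lt_floor_add_one _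
      have h2 : κ₁ * (Y / (2 * M)) ≤ κ₁ * X := mul_le_mul_of_nonneg_left hXr hκ₁.le
      have h3 : κ₁ / (4 * M) * Y = κ₁ * (Y / (2 * M)) / 2 := by
        field_simp
        ring
      have h4 : 2 ≤ κ₁ * (Y / (2 * M)) := by
        rw [mul_div_assoc', le_div_iff₀ (by positivity)]
        linarith only [hYb]
      rw [h3]
      linarith only [h1, h2, h4]
    · omega
    · have e2 : (j + 1) * h = j * h + h := by ring
      omega
  -- a good radius
  obtain ⟨B, hBd⟩ : ∃ B : ℝ, B = q * (ε / (8 * K') * X + C * (1 + δ)) +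
    q * (C * X * (k' * δ + (X + 1))) / Y := ⟨_, rfl⟩
  obtain ⟨a', ha', hsum⟩ : ∃ a' ∈ Ico α (α + Y), ∑ i ∈ range q, g i a' ≤ B := by
    refine Finset.exists_le_of_sum_le ⟨α, by rw [Finset.mem_Ico]; omega⟩ ?_
    rw [Finset.sum_comm, Finset.sum_const, Nat.card_Ico, Nat.add_sub_cancel_left, nsmul_eq_mul]
    refine (Finset.sum_le_sum fun i hi => hrows i (Finset.mem_range.1 hi)).trans (le_of_eq ?_)
    rw [Finset.sum_const, Finset.card_range, nsmul_eq_mul, hBd]
    field_simp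
  rw [Finset.mem_Ico] at ha'
  obtain ⟨s, hs⟩ : ∃ s, s = a - a' := ⟨_, rfl⟩
  have hsY : Y ≤ s := by omega
  have hs2 : s ≤ 2 * Y := by omega
  have has : a = a' + s := by omega
  subst has
  -- the chain
  have c1 := hcl d a' s P X q hp hOK.deg hqXP
  rw [← hS₀] at c1
  have c2 := hst d a' s P (q * X) hp hOK.deg
    ((Nat.mul_le_mul_left K hs2).trans hq2) hqXP
  rw [← hS₀] at c2
  have c3 : ∑ i ∈ range q, (CH d.P (d.shp a' (S₀ + i * X + X)) (d.ctx a' (S₀ + i * X)) + Cr) =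
      ∑ i ∈ range q, g i a' + q * Cr := by
    rw [Finset.sum_add_distrib, Finset.sum_const, Finset.card_range, nsmul_eq_mul, hg]
  rw [c3] at c1
  have c4 := hrdn d a' P s hp hOK.deg
  have c5 := CH_le_add hp0 (d.shp (a' + s) (P + Y)) (d.ctx a' P) (d.ctx (a' + s) P)
  have c6 : CH d.P (d.shp (a' + s) (P + Y)) (fun ω => (d.ctx a' P ω, d.ctx (a' + s) P ω)) ≤
      CH d.P (d.shp (a' + s) (P + Y)) (fun ω => (d.ctx a' P ω, d.cel (a' + s) ω)) :=
    CH_mono_cond hp0 fun ω ω' _ _ e => by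
      simp only [Prod.mk.injEq] at e ⊢
      exact ⟨e.1, d.ctx_cel e.2⟩
  have c7 : CH d.P (d.shp (a' + s) (P + Y)) (fun ω => (d.ctx a' P ω, d.cel (a' + s) ω)) ≤
      CH d.P (fun ω => (d.ctx (a' + s) P ω, d.shp (a' + s) (P + s) ω))
        (fun ω => (d.ctx a' P ω, d.cel (a' + s) ω)) :=
    CH_mono_left hp0 fun ω ω' _ _ e => by
      simp only [Prod.mk.injEq] at e
      exact shp_pre d (by omega) e.1.2
  -- the sum of the constants
  have f1 : q * (ε / (8 * K') * X) ≤ ε / 8 * Y := by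
    calc q * (ε / (8 * K') * X) = ε / (8 * K') * (q * X) := by ring
      _ ≤ ε / (8 * K') * (K' * Y) := mul_le_mul_of_nonneg_left hqXr (by positivity)
      _ = ε / 8 * Y := by field_simp
  have f2 : q * (C * X * (k' * δ + (X + 1))) / Y ≤ C * K' * (k' * δ + (X + 1)) := by
    rw [div_le_iff₀ hYr]
    calc q * (C * X * (k' * δ + (X + 1))) = C * (k' * δ + (X + 1)) * (q * X) := by ring
      _ ≤ C * (k' * δ + (X + 1)) * (K' * Y) := mul_le_mul_of_nonneg_left hqXr (by positivity)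
      _ = C * K' * (k' * δ + (X + 1)) * Y := by ring
  have f3 : q * (C * δ) + C * K' * (k' * δ) ≤ ε / 8 * Y := by
    have : q * (C * δ) + C * K' * (k' * δ) = δ₀ * (q * C + C * K' * k') * Y := by
      rw [hδ]
      ring
    rw [this]
    exact mul_le_mul_of_nonneg_right hδb hYr.le
  have f4 : C * K' * X ≤ ε / 8 * Y := by
    have h1 : 8 * (C * K') * X ≤ ε * M * X := mul_le_mul_of_nonneg_right hMC hX0
    have h2 : ε * (M * X) ≤ ε * Y := mul_le_mul_of_nonneg_left hXMr hε.le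
    linarith only [h1, h2]
  have f5 : B + q * Cr + Cs + Cd ≤ ε * Y := by
    have e1 : B = q * (ε / (8 * K') * X) + q * C + q * (C * δ) +
        q * (C * X * (k' * δ + (X + 1))) / Y := by rw [hBd]; ring
    have e2 : C * K' * (k' * δ + (X + 1)) = C * K' * (k' * δ) + C * K' * X + C * K' := by ring
    rw [e2] at f2
    rw [hCc] at hYa
    have h0 : 0 ≤ ε * Y := by positivity
    linarith only [hCc, hCc0, hYa, hBd, f1, f2, f3, f4]
  linarith only [hCc, hCc0, hYa, hBd, hsum, c1, c2, c4, c5, c6, c7, f1, f2, f3, f4]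

end Pool.OVN
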